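import Pool.Agent.J4H24.PR.Arith

/-!
# Estimates for the parameters
-/

namespace Pool.Agent.J4H24.SR

open Pool.Agent.J4H24.PR

lemma exp_small {x : ℝ} (hx : x ≤ -7) : Real.exp x ≤ 1 / 6 := by
  have h3 : Real.exp x ≤ Real.exp (-7) := Real.exp_le_exp.mpr hx
  have h4 : (6 : ℝ) ≤ Real.exp 7 := by
    have := Real.add_one_le_exp (7 : ℝ)
    linarith
  rw [Real.exp_neg] at h3
  refine h3.trans ?_
  rw [inv_eq_one_div]
  exact one_div_le_one_div_of_le (by norm_num) h4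

lemma est1 {n : ℕ} (hn : 1 ≤ n) {M : ℝ} (hM : 20 * (n : ℝ) ≤ M) :
    (2 : ℝ) ^ n * n * Real.exp (-M) ≤ 1 / 6 := by
  have hnR : (1 : ℝ) ≤ n := by exact_mod_cast hn
  have hexpn : (n : ℝ) + 1 ≤ Real.exp n := Real.add_one_le_exp _
  calc (2 : ℝ) ^ n * n * Real.exp (-M) ≤ Real.exp n * Real.exp n * Real.exp (-M) := by
          refine mul_le_mul_of_nonneg_right ?_ (Real.exp_pos _).le
          exact mul_le_mul (two_pow_le_exp n) (by linarith) (by positivity) (Real.exp_pos _).le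
    _ = Real.exp (n + n + -M) := by
        rw [← Real.exp_add, ← Real.exp_add]
    _ ≤ 1 / 6 := exp_small (by linarith)

lemma est2 {n : ℕ} (hn : 1 ≤ n) {M : ℝ} (hM : 10 * (n : ℝ) ^ 2 ≤ M) :
    (2 : ℝ) ^ n * 2 ^ n * Real.exp (-M) ≤ 1 / 6 := by
  have hnR : (1 : ℝ) ≤ n := by exact_mod_cast hn
  calc (2 : ℝ) ^ n * 2 ^ n * Real.exp (-M) ≤ Real.exp n * Real.exp n * Real.exp (-M) := by
          refine mul_le_mul_of_nonneg_right ?_ (Real.exp_pos _).le
          exact mul_le_mul (two_pow_le_exp n) (two_pow_le_exp n) (by positivity)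
            (Real.exp_pos _).le
    _ = Real.exp (n + n + -M) := by
        rw [← Real.exp_add, ← Real.exp_add]
    _ ≤ 1 / 6 := exp_small (by nlinarith)

lemma est3 {n : ℕ} (hn : 1 ≤ n) {M : ℝ} (hM : 20 * (n : ℝ) ≤ M) :
    (2 : ℝ) ^ n * Real.exp (-M) ≤ 1 / 6 := by
  have hnR : (1 : ℝ) ≤ n := by exact_mod_cast hn
  calc (2 : ℝ) ^ n * Real.exp (-M) ≤ Real.exp n * Real.exp (-M) := by
          refine mul_le_mul_of_nonneg_right (two_pow_le_exp n) (Real.exp_pos _).le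
    _ = Real.exp (n + -M) := by
        rw [← Real.exp_add]
    _ ≤ 1 / 6 := exp_small (by linarith)

lemma est4 {n : ℕ} (hn : 1 ≤ n) {M : ℝ} (hM : 10 * (n : ℝ) ^ 2 ≤ M) :
    (2 : ℝ) ^ n * 2 ^ n * (n : ℝ) ^ n * Real.exp (-M) ≤ 1 / 6 := by
  have hnR : (1 : ℝ) ≤ n := by exact_mod_cast hn
  have hexpn : (n : ℝ) + 1 ≤ Real.exp n := Real.add_one_le_exp _
  have h1 : (n : ℝ) ^ n ≤ Real.exp (n * n) := by
    calc (n : ℝ) ^ n ≤ (Real.exp n) ^ n := pow_le_pow_left₀ (by linarith) (by linarith) _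
      _ = Real.exp (n * n) := by rw [← Real.exp_nat_mul]
  calc (2 : ℝ) ^ n * 2 ^ n * (n : ℝ) ^ n * Real.exp (-M) ≤
        Real.exp n * Real.exp n * Real.exp (n * n) * Real.exp (-M) := by
          refine mul_le_mul_of_nonneg_right ?_ (Real.exp_pos _).le
          refine mul_le_mul ?_ h1 (by positivity) (by positivity)
          exact mul_le_mul (two_pow_le_exp n) (two_pow_le_exp n) (by positivity)
            (Real.exp_pos _).le
    _ = Real.exp (n + n + n * n + -M) := by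
        rw [← Real.exp_add, ← Real.exp_add, ← Real.exp_add]
    _ ≤ 1 / 6 := exp_small (by nlinarith)

lemma est5 {n t x y a C : ℝ} {e r T : ℕ} (ht : 1 ≤ t) (hn0 : 0 ≤ n) (hn : n ≤ (2 * t) ^ T)
    (hx0 : 0 ≤ x) (hy : 0 ≤ y) (hx : x ≤ y / t ^ r) (ha : 0 ≤ a) (hC : 0 ≤ C)
    (hre : 2 * T + 1 ≤ r * e) : C * n ^ 2 * (a * x ^ e) ≤ C * 4 ^ T * a * y ^ e / t := by
  have ht0 : 0 < t := by linarith
  have h1 : n ^ 2 ≤ 4 ^ T * t ^ (2 * T) := by
    calc n ^ 2 ≤ ((2 * t) ^ T) ^ 2 := pow_le_pow_left₀ hn0 hn 2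
      _ = 4 ^ T * t ^ (2 * T) := by
          have h4 : (2 * t) ^ 2 = 4 * t ^ 2 := by ring
          rw [← pow_mul, mul_comm T 2, pow_mul, h4, mul_pow, ← pow_mul]
  have h2 : x ^ e ≤ y ^ e / t ^ (2 * T + 1) := by
    calc x ^ e ≤ (y / t ^ r) ^ e := pow_le_pow_left₀ hx0 hx e
      _ = y ^ e / t ^ (r * e) := by rw [div_pow, ← pow_mul]
      _ ≤ y ^ e / t ^ (2 * T + 1) := by
          refine div_le_div_of_nonneg_left (by positivity) (by positivity) ?_
          exact pow_le_pow_right₀ ht hre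
  calc C * n ^ 2 * (a * x ^ e) ≤ C * (4 ^ T * t ^ (2 * T)) * (a * (y ^ e / t ^ (2 * T + 1))) := by
        refine mul_le_mul (mul_le_mul_of_nonneg_left h1 hC) (mul_le_mul_of_nonneg_left h2 ha)
          (by positivity) (by positivity)
    _ = C * 4 ^ T * a * y ^ e / t := by
        rw [pow_succ]
        field_simp

lemma est_final {n t c : ℝ} {T : ℕ} {w η l : ℝ} (hc : 1 ≤ c) (ht : 8 * c ≤ t) (hn : t ^ T ≤ n)
    (hT : 20 ≤ T) (hη : 19 ≤ T * η) (hη0 : 0 < η) (hw : n ≤ 4 * c * w * t ^ 9)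
    (hlen : 1 / 2 ≤ l * Real.exp (-(w / (2 * t ^ 9)))) (hl : 0 ≤ l) :
    (2 : ℝ) ^ (n ^ (1 - η)) ≤ l := by
  have ht1 : 1 ≤ t := by linarith
  have ht0 : 0 < t := by linarith
  have hn0 : 0 < n := lt_of_lt_of_le (by positivity) hn
  obtain ⟨z, hz⟩ : ∃ z : ℝ, z = n / (8 * c * t ^ 18) := ⟨_, rfl⟩
  have hwz : z ≤ w / (2 * t ^ 9) := by
    rw [hz, div_le_div_iff₀ (by positivity) (by positivity)]
    calc n * (2 * t ^ 9) ≤ (4 * c * w * t ^ 9) * (2 * t ^ 9) :=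
          mul_le_mul_of_nonneg_right hw (by positivity)
      _ = w * (8 * c * t ^ 18) := by ring
  have hlen2 : Real.exp z / 2 ≤ l := by
    have h3 : l * Real.exp (-(w / (2 * t ^ 9))) ≤ l * Real.exp (-z) :=
      mul_le_mul_of_nonneg_left (Real.exp_le_exp.mpr (neg_le_neg hwz)) hl
    have h4 : (1 : ℝ) / 2 ≤ l * Real.exp (-z) := hlen.trans h3
    rw [Real.exp_neg, ← div_eq_mul_inv, le_div_iff₀ (Real.exp_pos z)] at h4
    linarith
  refine le_trans ?_ hlen2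
  have h18 : 8 * c * t ^ 18 ≤ t ^ 19 := by
    calc 8 * c * t ^ 18 ≤ t * t ^ 18 := mul_le_mul_of_nonneg_right ht (by positivity)
      _ = t ^ 19 := by ring
  have hz8 : 8 ≤ z := by
    rw [hz, le_div_iff₀ (by positivity)]
    calc 8 * (8 * c * t ^ 18) ≤ t * t ^ 19 := by
          refine mul_le_mul (by linarith) h18 (by positivity) ht0.le
      _ = t ^ 20 := by ring
      _ ≤ t ^ T := pow_le_pow_right₀ ht1 hT
      _ ≤ n := hn
  have hnz : n ^ (1 - η) ≤ z := by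
    have h1 : t ^ 19 ≤ n ^ η := by
      calc t ^ 19 = t ^ ((19 : ℕ) : ℝ) := by rw [Real.rpow_natCast]
        _ ≤ t ^ ((T : ℝ) * η) := Real.rpow_le_rpow_of_exponent_le ht1 (by
            push_cast
            exact hη)
        _ = (t ^ T) ^ η := by rw [Real.rpow_mul ht0.le, Real.rpow_natCast]
        _ ≤ n ^ η := Real.rpow_le_rpow (by positivity) hn hη0.le
    rw [Real.rpow_sub hn0, Real.rpow_one, hz]
    exact div_le_div_of_nonneg_left hn0.le (by positivity) (h18.trans h1)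
  calc (2 : ℝ) ^ (n ^ (1 - η)) ≤ (2 : ℝ) ^ z :=
        Real.rpow_le_rpow_of_exponent_le (by norm_num) hnz
    _ = Real.exp (Real.log 2 * z) := by
        rw [Real.rpow_def_of_pos (by norm_num)]
    _ ≤ Real.exp z / 2 := by
        rw [le_div_iff₀ (by norm_num)]
        have h4 : Real.exp (Real.log 2 * z) * 2 = Real.exp (Real.log 2 * z + Real.log 2) := by
          rw [Real.exp_add, Real.exp_log (by norm_num)]
        rw [h4]
        refine Real.exp_le_exp.mpr ?_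
        have h5 := Real.log_two_lt_d9
        nlinarith

end Pool.Agent.J4H24.SR
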