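import Pool.Agent.J4H24.SR.Res
import Pool.Agent.J4H24.SR.Arith
import Pool.Agent.J4H24.PR.Exist

/-!
# The lower bound for substitution redundancy without new variables
-/

namespace Pool.Agent.J4H24.SR

open Finset Pool.Agent.J4H24 Pool.Agent.J4H24.PR

set_option linter.unusedSectionVars false

/-- existence of the systems -/
theorem exists_system {d n t m c : ℕ} (hd : 9 ≤ d) (hc : c = 12 * d + 17)
    (h1 : t ^ (4 * d + 4) ≤ n) (h2 : n < (t + 1) ^ (4 * d + 4))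
    (hmR : (m : ℝ) = 20 * 32 ^ c * (n : ℝ) ^ 2) (ht : 2 * c ≤ t)
    (ht4 : 20 * (32 : ℝ) ^ c * 4 ^ (4 * d + 4) * 2 ^ c * (2 * c) ^ (9 * d + 17) * (2 * 32 ^ c) ≤ t)
    (ht5 : 20 * (32 : ℝ) ^ c * 4 ^ (4 * d + 4) * 3 ^ c * (2 * c) ^ d * 12 ≤ t) :
    ∃ (A : Fin m → Fin n → ZMod 2) (b : Fin m → ZMod 2),
      Rig A b c (9 * d + 17) (n / 2) (n / 8) (n / 16) (n / t + 1) ∧
      ∀ J : Finset (Fin m), J.card ≤ 2 * (n / t ^ 9) →
        (c - 2 * d) * J.card ≤ (supp A J).card := by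
  classical
  have hcpos : 0 < c := by omega
  have hcz : NeZero c := ⟨by omega⟩
  have ht32 : 250 ≤ t := by omega
  have htn : t ≤ n := le_trans (Nat.le_self_pow (by omega) t) h1
  have hnz : NeZero n := ⟨by omega⟩
  have hn1 : 1 ≤ n := by omega
  have hnR : (1 : ℝ) ≤ n := by exact_mod_cast hn1
  have hn0 : (0 : ℝ) < n := by linarith
  have htR : (250 : ℝ) ≤ t := by exact_mod_cast ht32
  have ht0 : (0 : ℝ) < t := by linarith
  have ht1 : (1 : ℝ) ≤ t := by linarith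
  have htnR : (t : ℝ) ≤ n := by exact_mod_cast htn
  have h1R : (t : ℝ) ^ (4 * d + 4) ≤ n := by exact_mod_cast h1
  have h2R : (n : ℝ) ≤ (2 * t) ^ (4 * d + 4) := by
    have : n ≤ (2 * t) ^ (4 * d + 4) := h2.le.trans (Nat.pow_le_pow_left (by omega) _)
    exact_mod_cast this
  have hcR : (0 : ℝ) < c := by exact_mod_cast hcpos
  have hoddc : Odd c := by
    rw [hc]
    exact ⟨6 * d + 8, by ring⟩
  -- the first condition
  have f1 := PR.fr_fail1 (V := Fin n) (ι := Fin m) (c := c) 0 (n / 2) (by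
    rw [Fintype.card_fin]; omega)
  rw [Fintype.card_fin, Fintype.card_fin] at f1
  have g1 := f1.trans (est1 hn1 (by
    rw [hmR]
    have h3 : 20 * (32 : ℝ) ^ c * (n : ℝ) ^ 2 * (1 / (n : ℝ) * (1 / 3) ^ c) =
        20 * n * (32 ^ c * (1 / 3) ^ c) := by
      field_simp
    rw [h3, ← mul_pow]
    have h4 : (1 : ℝ) ≤ (32 * (1 / 3)) ^ c := one_le_pow₀ (by norm_num)
    nlinarith))
  -- the second condition
  have f2 := fr_fail2 (V := Fin n) (ι := Fin m) (c := c) (n / 8) (by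
    rw [Fintype.card_fin]; omega)
  rw [Fintype.card_fin, Fintype.card_fin] at f2
  have g2 := f2.trans (est2 hn1 (by
    rw [hmR]
    have h3 : 20 * (32 : ℝ) ^ c * (n : ℝ) ^ 2 * ((1 / 16) ^ c / 2) =
        10 * n ^ 2 * (32 ^ c * (1 / 16) ^ c) := by ring
    rw [h3, ← mul_pow]
    have h4 : (1 : ℝ) ≤ (32 * (1 / 16)) ^ c := one_le_pow₀ (by norm_num)
    have h5 : (0 : ℝ) ≤ 10 * n ^ 2 := by positivity
    nlinarith))
  -- the third condition
  have f3 := fr_fail3 (V := Fin n) (ι := Fin m) (c := c) (4 * d + 3) t (n / t + 1) (9 * d + 17)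
    (by omega) (by omega) ⟨2 * d + 1, by ring⟩ hoddc (by
      rw [Fintype.card_fin]
      exact (Nat.lt_mul_div_succ n (by omega)).le) (by omega) (by omega)
  rw [Fintype.card_fin, Fintype.card_fin] at f3
  have g3 := f3.trans (est3 hn1 (by
    rw [hmR]
    have h3 : 20 * (32 : ℝ) ^ c * (n : ℝ) ^ 2 * ((1 / (t : ℝ)) ^ (4 * d + 3) * (1 / 2) ^ c) =
        20 * n * ((n * (1 / (t : ℝ)) ^ (4 * d + 3)) * (32 ^ c * (1 / 2) ^ c)) := by ring
    rw [h3, ← mul_pow]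
    have h4 : (1 : ℝ) ≤ (32 * (1 / 2)) ^ c := one_le_pow₀ (by norm_num)
    have h5 : (1 : ℝ) ≤ n * (1 / (t : ℝ)) ^ (4 * d + 3) := by
      rw [one_div, inv_pow, ← div_eq_mul_inv, le_div_iff₀ (by positivity), one_mul]
      refine le_trans ?_ h1R
      exact pow_le_pow_right₀ ht1 (by omega)
    have h6 : (1 : ℝ) ≤ (n * (1 / (t : ℝ)) ^ (4 * d + 3)) * (32 * (1 / 2)) ^ c :=
      one_le_mul_of_one_le_of_one_le h5 h4
    have h7 : (0 : ℝ) ≤ 20 * n := by positivity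
    nlinarith))
  -- the fourth condition
  have f4 := fr_fail4 (V := Fin n) (ι := Fin m) (c := c) (9 * d + 17) (n / t + 1) (n / 16) (by
    rw [Fintype.card_fin]; omega) (by
      rw [Fintype.card_fin, Fintype.card_fin, hmR]
      have h3 : ((c : ℝ) * ((n / t + 1 : ℕ) : ℝ)) / n ≤ 2 * c / t ^ 1 := by
        rw [pow_one, div_le_div_iff₀ hn0 ht0]
        have h4 : ((n / t + 1 : ℕ) : ℝ) * t ≤ 2 * n := by
          have h5 : (n / t + 1) * t ≤ 2 * n := by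
            have := Nat.div_mul_le_self n t
            rw [Nat.add_mul]
            omega
          exact_mod_cast h5
        calc (c : ℝ) * ((n / t + 1 : ℕ) : ℝ) * t = c * (((n / t + 1 : ℕ) : ℝ) * t) := by ring
          _ ≤ c * (2 * n) := mul_le_mul_of_nonneg_left h4 hcR.le
          _ = 2 * c * n := by ring
      refine (est5 ht1 hn0.le h2R (by positivity) (by positivity) h3 (by positivity)
        (by positivity) (by omega)).trans ?_
      rw [div_le_iff₀ ht0]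
      have h6 : (0 : ℝ) < 2 * 32 ^ c := by positivity
      have h7 : (1 / 32 : ℝ) ^ c / 2 = 1 / (2 * 32 ^ c) := by
        rw [one_div_pow]
        field_simp
      rw [h7, one_div_mul_eq_div, le_div_iff₀ h6]
      exact ht4)
  rw [Fintype.card_fin, Fintype.card_fin] at f4
  have g4 := f4.trans (est4 hn1 (by
    rw [hmR]
    have h3 : 20 * (32 : ℝ) ^ c * (n : ℝ) ^ 2 * ((1 / 32) ^ c / 2) =
        10 * n ^ 2 * (32 ^ c * (1 / 32) ^ c) := by ring
    rw [h3, ← mul_pow]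
    have h4 : (32 * (1 / 32) : ℝ) ^ c = 1 := by
      norm_num
    rw [h4, mul_one]))
  -- the expansion
  have hKn : ((n / t ^ 9 : ℕ) : ℝ) ≤ n / t ^ 9 := by
    have := Nat.cast_div_le (α := ℝ) (m := n) (n := t ^ 9)
    push_cast at this
    exact this
  have hmy : (m : ℝ) * (3 ^ c * ((c * (2 * ((n / t ^ 9 : ℕ) : ℝ))) / n) ^ d) ≤ 1 / 12 := by
    rw [hmR]
    have h3 : ((c : ℝ) * (2 * ((n / t ^ 9 : ℕ) : ℝ))) / n ≤ 2 * c / t ^ 9 := by
      rw [div_le_div_iff₀ hn0 (by positivity)]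
      have h4 : ((n / t ^ 9 : ℕ) : ℝ) * t ^ 9 ≤ n := by
        rw [le_div_iff₀ (by positivity)] at hKn
        exact hKn
      calc (c : ℝ) * (2 * ((n / t ^ 9 : ℕ) : ℝ)) * (t : ℝ) ^ 9 =
            2 * (c : ℝ) * (((n / t ^ 9 : ℕ) : ℝ) * (t : ℝ) ^ 9) := by ring
        _ ≤ 2 * (c : ℝ) * (n : ℝ) := mul_le_mul_of_nonneg_left h4 (by positivity)
    refine (est5 ht1 hn0.le h2R (by positivity) (by positivity) h3 (by positivity)
      (by positivity) (by omega)).trans ?_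
    rw [div_le_iff₀ ht0]
    linarith
  have f5 := fr_fail5 (V := Fin n) (ι := Fin m) (c := c) (d := d) (by omega) (n / t ^ 9) (by
    rw [Fintype.card_fin]
    have h3 : n / t ^ 9 * t ^ 9 ≤ n := Nat.div_mul_le_self _ _
    refine le_trans ?_ h3
    calc c * (2 * (n / t ^ 9)) = n / t ^ 9 * (2 * c) := by ring
      _ ≤ n / t ^ 9 * t ^ 9 := by
          refine Nat.mul_le_mul_left _ (ht.trans ?_)
          exact Nat.le_self_pow (by norm_num) t) (by
    rw [Fintype.card_fin, Fintype.card_fin]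
    linarith)
  rw [Fintype.card_fin, Fintype.card_fin] at f5
  have g5 : fr (fun ω : Fin m → Row (Fin n) c => ¬ ∀ J : Finset (Fin m),
      J.card ≤ 2 * (n / t ^ 9) →
      (c - 2 * d) * J.card ≤ (supp (fun i => rowA (ω i).1) J).card) ≤ 1 / 6 :=
    f5.trans (by linarith)
  -- all conditions together
  have f := (fr_or (fun ω : Fin m → Row (Fin n) c => ¬ H1 (fun i => rowA (ω i).1) (n / 2))
    (fun ω => (¬ ∀ Q : Finset (Fin n), n / 8 ≤ Q.card → ∀ y : Fin n → Bool,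
      ∃ i, vars (fun i => rowA (ω i).1) i ⊆ Q ∧
        PR.val (fun i => rowA (ω i).1) i y ≠ bz (ω i).2) ∨
      ((¬ ∀ F : Finset (Fin n), n / t + 1 ≤ F.card →
        ∃ i, ∑ v ∈ F, rowA (ω i).1 v = 1 ∧
          (vars (fun i => rowA (ω i).1) i \ F).card + 1 < 9 * d + 17) ∨
      ((¬ ∀ (P D : Finset (Fin n)) (π : Fin n → Fin n), n / 16 ≤ P.card →
        (∀ v ∈ P, π v ∉ P ∧ π v ∉ D) → (∀ u, (P.filter fun v => π v = u).card < n / t + 1) →
        ∃ i, vars (fun i => rowA (ω i).1) i ⊆ P ∧ ∀ j, ¬ vars (fun i => rowA (ω i).1) j ⊆ P →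
          9 * d + 17 ≤ (vars (fun i => rowA (ω i).1) j \ D).card →
          ∃ u, u ∉ D ∧ (∑ v, if π v = u then rowA (ω i).1 v else 0) ≠ rowA (ω j).1 u) ∨
      (¬ ∀ J : Finset (Fin m), J.card ≤ 2 * (n / t ^ 9) →
      (c - 2 * d) * J.card ≤ (supp (fun i => rowA (ω i).1) J).card)))))
  have f' := fr_or (fun ω : Fin m → Row (Fin n) c =>
    (¬ ∀ Q : Finset (Fin n), n / 8 ≤ Q.card → ∀ y : Fin n → Bool,
      ∃ i, vars (fun i => rowA (ω i).1) i ⊆ Q ∧
        PR.val (fun i => rowA (ω i).1) i y ≠ bz (ω i).2))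
    (fun ω => (¬ ∀ F : Finset (Fin n), n / t + 1 ≤ F.card →
        ∃ i, ∑ v ∈ F, rowA (ω i).1 v = 1 ∧
          (vars (fun i => rowA (ω i).1) i \ F).card + 1 < 9 * d + 17) ∨
      ((¬ ∀ (P D : Finset (Fin n)) (π : Fin n → Fin n), n / 16 ≤ P.card →
        (∀ v ∈ P, π v ∉ P ∧ π v ∉ D) → (∀ u, (P.filter fun v => π v = u).card < n / t + 1) →
        ∃ i, vars (fun i => rowA (ω i).1) i ⊆ P ∧ ∀ j, ¬ vars (fun i => rowA (ω i).1) j ⊆ P →
          9 * d + 17 ≤ (vars (fun i => rowA (ω i).1) j \ D).card →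
          ∃ u, u ∉ D ∧ (∑ v, if π v = u then rowA (ω i).1 v else 0) ≠ rowA (ω j).1 u) ∨
      (¬ ∀ J : Finset (Fin m), J.card ≤ 2 * (n / t ^ 9) →
      (c - 2 * d) * J.card ≤ (supp (fun i => rowA (ω i).1) J).card)))
  have f'' := fr_or (fun ω : Fin m → Row (Fin n) c =>
    (¬ ∀ F : Finset (Fin n), n / t + 1 ≤ F.card →
        ∃ i, ∑ v ∈ F, rowA (ω i).1 v = 1 ∧
          (vars (fun i => rowA (ω i).1) i \ F).card + 1 < 9 * d + 17))
    (fun ω => (¬ ∀ (P D : Finset (Fin n)) (π : Fin n → Fin n), n / 16 ≤ P.card →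
        (∀ v ∈ P, π v ∉ P ∧ π v ∉ D) → (∀ u, (P.filter fun v => π v = u).card < n / t + 1) →
        ∃ i, vars (fun i => rowA (ω i).1) i ⊆ P ∧ ∀ j, ¬ vars (fun i => rowA (ω i).1) j ⊆ P →
          9 * d + 17 ≤ (vars (fun i => rowA (ω i).1) j \ D).card →
          ∃ u, u ∉ D ∧ (∑ v, if π v = u then rowA (ω i).1 v else 0) ≠ rowA (ω j).1 u) ∨
      (¬ ∀ J : Finset (Fin m), J.card ≤ 2 * (n / t ^ 9) →
      (c - 2 * d) * J.card ≤ (supp (fun i => rowA (ω i).1) J).card))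
  have f''' := fr_or (fun ω : Fin m → Row (Fin n) c =>
    (¬ ∀ (P D : Finset (Fin n)) (π : Fin n → Fin n), n / 16 ≤ P.card →
        (∀ v ∈ P, π v ∉ P ∧ π v ∉ D) → (∀ u, (P.filter fun v => π v = u).card < n / t + 1) →
        ∃ i, vars (fun i => rowA (ω i).1) i ⊆ P ∧ ∀ j, ¬ vars (fun i => rowA (ω i).1) j ⊆ P →
          9 * d + 17 ≤ (vars (fun i => rowA (ω i).1) j \ D).card →
          ∃ u, u ∉ D ∧ (∑ v, if π v = u then rowA (ω i).1 v else 0) ≠ rowA (ω j).1 u))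
    (fun ω => (¬ ∀ J : Finset (Fin m), J.card ≤ 2 * (n / t ^ 9) →
      (c - 2 * d) * J.card ≤ (supp (fun i => rowA (ω i).1) J).card))
  obtain ⟨ω, hω⟩ := exists_not_of_fr_lt (lt_of_le_of_lt f (by linarith))
  simp only [not_or, not_not] at hω
  obtain ⟨w1, w2, w3, w4, w5⟩ := hω
  refine ⟨fun i => rowA (ω i).1, fun i => bz (ω i).2, ?_, w5⟩
  exact
    { card := fun i => vars_rowA_card (fun i => (ω i).1) i
      odd := fun i => by
        rw [sum_rowA, ZMod.natCast_eq_one_iff_odd]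
        exact hoddc
      h1 := w1
      h2 := w2
      h3 := w3
      h4 := w4 }

/-- the lower bound for the systems -/
theorem length_bound {d n t m c : ℕ} {η : ℝ} (hd : 9 ≤ d) (hc : c = 12 * d + 17)
    (h1 : t ^ (4 * d + 4) ≤ n) (h2 : n < (t + 1) ^ (4 * d + 4))
    (hmR : (m : ℝ) = 20 * 32 ^ c * (n : ℝ) ^ 2) (ht : 8 * (c + 4) ≤ t)
    (ht6 : 20 * (32 : ℝ) ^ c * 4 ^ (4 * d + 4) * 2 ^ c * 1 ^ d * 4 ≤ t)
    (hη : 19 ≤ ((4 * d + 4 : ℕ) : ℝ) * η) (hη0 : 0 < η)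
    {A : Fin m → Fin n → ZMod 2} {b : Fin m → ZMod 2}
    (hR : Rig A b c (9 * d + 17) (n / 2) (n / 8) (n / 16) (n / t + 1))
    (hE : ∀ J : Finset (Fin m), J.card ≤ 2 * (n / t ^ 9) →
        (c - 2 * d) * J.card ≤ (supp A J).card)
    (L : List (Finset (Fin n × Bool))) (hL : SR.Derivation (sys A b) L) (he : ∅ ∈ L) :
    (2 : ℝ) ^ ((n : ℝ) ^ (1 - η)) ≤ L.length := by
  classical
  have htpos : 0 < t := by omega
  have htR0 : (1 : ℝ) ≤ t := by exact_mod_cast (show 1 ≤ t by omega)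
  have ht0 : (0 : ℝ) < t := by linarith
  have hn1 : 1 ≤ n := le_trans (Nat.one_le_pow _ _ (by omega)) h1
  have hnR : (1 : ℝ) ≤ n := by exact_mod_cast hn1
  have h1R : (t : ℝ) ^ (4 * d + 4) ≤ n := by exact_mod_cast h1
  have h2R : (n : ℝ) ≤ (2 * t) ^ (4 * d + 4) := by
    have : n ≤ (2 * t) ^ (4 * d + 4) := h2.le.trans (Nat.pow_le_pow_left (by omega) _)
    exact_mod_cast this
  obtain ⟨t9, ht9⟩ : ∃ t9, t9 = t ^ 9 := ⟨_, rfl⟩
  have ht9R : (t9 : ℝ) = (t : ℝ) ^ 9 := by rw [ht9]; push_cast; rfl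
  rw [← ht9] at hE
  have ht9pos : 0 < t9 := by rw [ht9]; positivity
  have hnz : NeZero t9 := ⟨by omega⟩
  obtain ⟨K, hK⟩ : ∃ K, K = n / t9 := ⟨_, rfl⟩
  rw [← hK] at hE
  obtain ⟨w, hw⟩ : ∃ w, w = K / (c + 4) := ⟨_, rfl⟩
  -- sizes
  have hKt : t ≤ K := by
    rw [hK, Nat.le_div_iff_mul_le ht9pos, ht9]
    refine le_trans ?_ h1
    rw [← pow_succ']
    exact Nat.pow_le_pow_right htpos (by omega)
  have hKt2 : t * t ≤ K := by
    rw [hK, Nat.le_div_iff_mul_le ht9pos, ht9]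
    refine le_trans ?_ h1
    have : t * t * t ^ 9 = t ^ 11 := by ring
    rw [this]
    exact Nat.pow_le_pow_right htpos (by omega)
  have hwt : t ≤ w := by
    rw [hw, Nat.le_div_iff_mul_le (by omega)]
    refine le_trans (Nat.mul_le_mul_left _ ?_) hKt2
    omega
  have hwK : (c + 4) * w ≤ K := by
    rw [hw, mul_comm]
    exact Nat.div_mul_le_self _ _
  have hmul : (c + 4) * w = (c + 3) * w + w := by ring
  have hKn : K ≤ n := by
    rw [hK]
    exact Nat.div_le_self _ _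
  have hlen : (1 : ℝ) / 2 ≤ L.length * Real.exp (-(w / (2 * t9))) := by
    by_contra hcon
    push Not at hcon
    obtain ⟨D0, x0, g0, g1, g2, g3⟩ := exists_res (t := t9) (ι := Fin m) (A := A) (K := K)
      (w := w) (c := c) (d := d) (by omega) (by omega) hR.card hE (by
        rw [Fintype.card_fin, hmR]
        have h3 : 1 / (t9 : ℝ) ≤ 1 / t ^ 9 := by rw [ht9R]
        have h4 := est5 (C := 20 * (32 : ℝ) ^ c) (a := 2 ^ c) (y := 1) (x := 1 / (t9 : ℝ))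
          (e := d) (r := 9) htR0 (by linarith) h2R (by positivity) (by norm_num) h3
          (by positivity) (by positivity) (by omega)
        have h5 : 20 * (32 : ℝ) ^ c * 4 ^ (4 * d + 4) * 2 ^ c * 1 ^ d / t ≤ 1 / 4 := by
          rw [div_le_iff₀ ht0]
          linarith
        linarith) L hcon
    have he' : c - 3 * d = (9 * d + 16) + 1 := by omega
    rw [he'] at g0
    obtain ⟨C, hC, hns⟩ := SR.exists_wide (w := w) (e1 := 9 * d + 16) (K := K) (s := K)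
      (D0 := D0) (c := c) hR (Nat.succ_pos _) (by omega) g1 (by omega) g0 (by omega) (by omega)
      (by omega) (by omega) (by
        have : w ≤ (c + 4) * w := Nat.le_mul_of_pos_left _ (by omega)
        omega) (by omega) g2 hL he x0
    exact hns (g3 C hC)
  -- the computation
  have hw1 : n ≤ 4 * (c + 4) * w * t9 := by
    have h3 : n < (K + 1) * t9 := by
      rw [hK, mul_comm]
      exact Nat.lt_mul_div_succ n ht9pos
    have h4 : K < (w + 1) * (c + 4) := by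
      rw [hw, mul_comm]
      exact Nat.lt_mul_div_succ K (by omega)
    have h5 : K + 1 ≤ 4 * (c + 4) * w := by
      have h6 : (w + 1) * (c + 4) ≤ (2 * w) * (c + 4) := Nat.mul_le_mul_right _ (by omega)
      have h7 : 4 * (c + 4) * w = (2 * w) * (c + 4) + (2 * w) * (c + 4) := by ring
      have h8 : 0 < (2 * w) * (c + 4) := Nat.mul_pos (by omega) (by omega)
      omega
    exact h3.le.trans (Nat.mul_le_mul_right _ h5)
  have hw2 : (n : ℝ) ≤ 4 * (c + 4) * w * (t : ℝ) ^ 9 := by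
    rw [← ht9R]
    exact_mod_cast hw1
  rw [ht9R] at hlen
  have htc : 8 * ((c : ℝ) + 4) ≤ t := by exact_mod_cast ht
  exact est_final (c := (c : ℝ) + 4) (T := 4 * d + 4) (by
    have : (0 : ℝ) ≤ c := Nat.cast_nonneg _
    linarith) htc h1R (by omega) hη hη0 hw2 hlen (Nat.cast_nonneg _)

/-- integer parts of roots -/
lemma exists_root (n T : ℕ) (hT : T ≠ 0) : ∃ t : ℕ, t ^ T ≤ n ∧ n < (t + 1) ^ T := by
  have hex : ∃ s : ℕ, n < (s + 1) ^ T :=
    ⟨n, lt_of_lt_of_le (Nat.lt_succ_self n) (Nat.le_self_pow hT _)⟩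
  refine ⟨Nat.find hex, ?_, Nat.find_spec hex⟩
  by_contra hcon
  push Not at hcon
  have hpos : Nat.find hex ≠ 0 := by
    intro h0
    rw [h0, zero_pow hT] at hcon
    omega
  obtain ⟨s, hs⟩ := Nat.exists_eq_succ_of_ne_zero hpos
  have hlt : s < Nat.find hex := by omega
  apply Nat.find_min hex hlt
  rw [hs] at hcon
  exact hcon

/-- the main theorem -/
theorem main (η : ℝ) (hη : 0 < η) : ∃ k C N : ℕ, ∀ n ≥ N, ∃ F : Finset (Finset (Fin n × Bool)),
    ¬ Sat (F : Set (Finset (Fin n × Bool))) ∧ (∀ D ∈ F, D.card ≤ k) ∧ F.card ≤ C * n ^ 2 ∧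
    ∀ L : List (Finset (Fin n × Bool)), SR.Derivation (F : Set (Finset (Fin n × Bool))) L →
      ∅ ∈ L → (2 : ℝ) ^ ((n : ℝ) ^ (1 - η)) ≤ L.length := by
  classical
  obtain ⟨d, hd, hdη⟩ : ∃ d : ℕ, 9 ≤ d ∧ 19 ≤ ((4 * d + 4 : ℕ) : ℝ) * η := by
    obtain ⟨d0, hd0⟩ := exists_nat_ge (19 / η)
    refine ⟨d0 + 9, by omega, ?_⟩
    rw [div_le_iff₀ hη] at hd0
    refine hd0.trans (mul_le_mul_of_nonneg_right ?_ hη.le)
    push_cast
    have : (0 : ℝ) ≤ d0 := Nat.cast_nonneg _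
    linarith
  obtain ⟨c, hc⟩ : ∃ c : ℕ, c = 12 * d + 17 := ⟨_, rfl⟩
  obtain ⟨T1, hT1⟩ := exists_nat_ge
    (20 * (32 : ℝ) ^ c * 4 ^ (4 * d + 4) * 2 ^ c * (2 * c) ^ (9 * d + 17) * (2 * 32 ^ c))
  obtain ⟨T2, hT2⟩ := exists_nat_ge
    (20 * (32 : ℝ) ^ c * 4 ^ (4 * d + 4) * 3 ^ c * (2 * c) ^ d * 12)
  obtain ⟨T3, hT3⟩ := exists_nat_ge
    (20 * (32 : ℝ) ^ c * 4 ^ (4 * d + 4) * 2 ^ c * 1 ^ d * 4)
  obtain ⟨T, hT⟩ : ∃ T : ℕ, T = T1 + T2 + T3 + 8 * (c + 4) := ⟨_, rfl⟩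
  refine ⟨c, 4 ^ c * (20 * 32 ^ c), T ^ (4 * d + 4), fun n hn => ?_⟩
  obtain ⟨t, h1, h2⟩ := exists_root n (4 * d + 4) (by omega)
  have ht : T ≤ t := by
    by_contra hcon
    push Not at hcon
    have h3 : (t + 1) ^ (4 * d + 4) ≤ T ^ (4 * d + 4) := Nat.pow_le_pow_left hcon _
    omega
  have hmR : ((20 * 32 ^ c * n ^ 2 : ℕ) : ℝ) = 20 * 32 ^ c * (n : ℝ) ^ 2 := by
    push_cast
    ring
  obtain ⟨m, hm⟩ : ∃ m : ℕ, m = 20 * 32 ^ c * n ^ 2 := ⟨_, rfl⟩
  rw [← hm] at hmR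
  have ht1 : (T1 : ℝ) ≤ t := by exact_mod_cast (show T1 ≤ t by omega)
  have ht2 : (T2 : ℝ) ≤ t := by exact_mod_cast (show T2 ≤ t by omega)
  have ht3 : (T3 : ℝ) ≤ t := by exact_mod_cast (show T3 ≤ t by omega)
  obtain ⟨A, b, hR, hE⟩ := exists_system hd hc h1 h2 hmR (by omega) (hT1.trans ht1)
    (hT2.trans ht2)
  have hfin : (sys A b).Finite := Set.toFinite _
  have hF : (hfin.toFinset : Set (Finset (Fin n × Bool))) = sys A b := hfin.coe_toFinset
  refine ⟨hfin.toFinset, ?_, ?_, ?_, ?_⟩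
  · rw [hF]
    rintro ⟨x, hx⟩
    obtain ⟨i, -, hi⟩ := hR.h2 univ (by
      rw [Finset.card_univ, Fintype.card_fin]
      exact Nat.div_le_self _ _) x
    obtain ⟨l, hl, hxl⟩ := hx (cl A i x) ⟨i, x, hi, rfl⟩
    obtain ⟨v, -, rfl⟩ := Finset.mem_image.mp hl
    simp at hxl
  · intro D hD
    exact card_clause hR.card (hfin.mem_toFinset.mp hD)
  · have h3 := card_sys hR.card hfin.toFinset hF
    rw [Fintype.card_fin] at h3
    rw [mul_assoc, ← hm]
    exact h3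
  · intro L hL he
    rw [hF] at hL
    exact length_bound hd hc h1 h2 hmR (by omega) (hT3.trans ht3) hdη hη hR hE L hL he

end Pool.Agent.J4H24.SR
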