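import Pool.Agent.J4H24.PR.Defs

/-!
# Substitution redundancy without new variables, with deletion of derived clauses: definitions

Clauses are finite sets of literals; a literal is a pair `(v, c)` of a variable and the value of the
variable that makes the literal true. A substitution maps every variable either to a constant
(`Sum.inl`) or to a literal (`Sum.inr`).
-/

namespace Pool.Agent.J4H24.SR

open Pool.Agent.J4H24.PR

variable {V : Type*}

/-- the image of a literal under a substitution: a constant or a literal -/
def sub (τ : V → Bool ⊕ (V × Bool)) (l : V × Bool) : Bool ⊕ (V × Bool) :=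
  match τ l.1 with
  | Sum.inl e => Sum.inl (e == l.2)
  | Sum.inr m => Sum.inr (m.1, m.2 == l.2)

/-- `C` is substitution redundant with respect to `Γ`: there is a substitution `τ` such that for
every clause `D` of `Γ`, and for `D = C`, either `τ` maps some literal of `D` to the constant true,
or unit propagation with the clauses of `Γ` refutes the negation of `C` together with the negations
of the literals that are images of literals of `D`. -/
def SRed (Γ : Set (Finset (V × Bool))) (C : Finset (V × Bool)) : Prop :=
  ∃ τ : V → Bool ⊕ (V × Bool), ∀ D : Finset (V × Bool), (D ∈ Γ ∨ D = C) →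
    (∃ l ∈ D, sub τ l = Sum.inl true) ∨
      Refutes Γ {l | neg l ∈ C ∨ ∃ l' ∈ D, sub τ l' = Sum.inr (neg l)}

/-- `Derivation F L`: the clauses of the list `L` (the last one first) are derived from the clauses
of `F` by substitution redundancy; each clause is redundant with respect to the clauses of `F` and a
set `M` of clauses derived before it (the other clauses derived before it have been deleted; the
clauses of `F` are never deleted, and there are no new variables). -/
inductive Derivation (F : Set (Finset (V × Bool))) : List (Finset (V × Bool)) → Prop
  | nil : Derivation F []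
  | cons {C : Finset (V × Bool)} {L : List (Finset (V × Bool))} (hL : Derivation F L)
      (M : Set (Finset (V × Bool))) (hM : ∀ D ∈ M, D ∈ L) (hC : SRed (F ∪ M) C) :
      Derivation F (C :: L)

/-- unit propagation is monotone in the starting literals -/
lemma up_mono {Γ : Set (Finset (V × Bool))} {S S' : Set (V × Bool)} (h : S ⊆ S') {l : V × Bool}
    (hl : UP Γ S l) : UP Γ S' l := by
  induction hl with
  | init h' => exact UP.init (h h')
  | unit hD hl _ ih => exact UP.unit hD hl ih

lemma refutes_mono {Γ : Set (Finset (V × Bool))} {S S' : Set (V × Bool)} (h : S ⊆ S')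
    (hr : Refutes Γ S) : Refutes Γ S' := by
  rcases hr with ⟨D, hD, hl⟩ | ⟨v, h1, h2⟩
  · exact Or.inl ⟨D, hD, fun l hl' => up_mono h (hl l hl')⟩
  · exact Or.inr ⟨v, up_mono h h1, up_mono h h2⟩

/-- reverse unit propagation is the special case of the identity substitution -/
lemma SRed.of_rup {Γ : Set (Finset (V × Bool))} {C : Finset (V × Bool)} (h : RUP Γ C) :
    SRed Γ C := by
  refine ⟨fun v => Sum.inr (v, true), fun D _ => Or.inr (refutes_mono ?_ h)⟩
  intro l hl
  exact Or.inl hl

/-- propagation redundancy is the special case of the substitutions that map every variable to a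
constant or to itself -/
lemma SRed.of_pred {Γ : Set (Finset (V × Bool))} {C : Finset (V × Bool)} (h : PRed Γ C) :
    SRed Γ C := by
  obtain ⟨τ, ⟨l0, hl0, hτ⟩, h⟩ := h
  refine ⟨fun v => match τ v with
    | some e => Sum.inl e
    | none => Sum.inr (v, true), fun D hD => ?_⟩
  by_cases hs : ∃ l ∈ D, τ l.1 = some l.2
  · obtain ⟨l, hl, hl2⟩ := hs
    left
    refine ⟨l, hl, ?_⟩
    simp [sub, hl2]
  · push Not at hs
    rcases hD with hD | rfl
    · right
      refine refutes_mono ?_ (h D hD hs)
      rintro l (hl | ⟨hl, hn⟩)
      · exact Or.inl hl
      · refine Or.inr ⟨neg l, hl, ?_⟩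
        obtain ⟨v, c⟩ := l
        simp only at hn
        cases c <;> simp [sub, neg, hn]
    · exact absurd hτ (hs l0 hl0)

end Pool.Agent.J4H24.SR
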