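import Pool.Agent.J4H24.SR.Defs

/-!
# Substitution redundancy and dominance without new variables: definitions
-/

namespace Pool.Agent.J4H24.SR

open Pool.Agent.J4H24.PR

variable {V : Type*}

/-- the assignment that gives every variable the value of its image under `τ` -/
def app (τ : V → Bool ⊕ (V × Bool)) (y : V → Bool) (v : V) : Bool :=
  match τ v with
  | Sum.inl e => e
  | Sum.inr m => y m.1 == m.2

/-- `C` may be added by dominance, with respect to the relation `lt` on the assignments, the formula
`F` and the present clauses `Γ`: there is a substitution `τ` such that for every clause `D` of `F`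
either `τ` maps some literal of `D` to the constant true, or unit propagation with the clauses of `Γ`
refutes the negation of `C` together with the negations of the literals that are images of literals
of `D`; and `τ` makes every assignment smaller that agrees with the literals obtained from the
negation of `C` by unit propagation with `Γ`. Clauses of `Γ` that are not in `F` need not be
preserved by `τ`. -/
def DRed (lt : (V → Bool) → (V → Bool) → Prop) (F Γ : Set (Finset (V × Bool)))
    (C : Finset (V × Bool)) : Prop :=
  ∃ τ : V → Bool ⊕ (V × Bool),
    (∀ D ∈ F, (∃ l ∈ D, sub τ l = Sum.inl true) ∨
      Refutes Γ {l | neg l ∈ C ∨ ∃ l' ∈ D, sub τ l' = Sum.inr (neg l)}) ∧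
    ∀ y : V → Bool, (∀ l, UP Γ {l | neg l ∈ C} l → y l.1 = l.2) → lt (app τ y) y

/-- `DomDerivation lt F L`: the clauses of the list `L` (the last one first) are derived from the
clauses of `F` by substitution redundancy and by dominance; each clause is derived with respect to
the clauses of `F` and a set `M` of clauses derived before it (the other clauses derived before it
have been deleted; the clauses of `F` are never deleted, and there are no new variables). -/
inductive DomDerivation (lt : (V → Bool) → (V → Bool) → Prop) (F : Set (Finset (V × Bool))) :
    List (Finset (V × Bool)) → Prop
  | nil : DomDerivation lt F []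
  | cons {C : Finset (V × Bool)} {L : List (Finset (V × Bool))} (hL : DomDerivation lt F L)
      (M : Set (Finset (V × Bool))) (hM : ∀ D ∈ M, D ∈ L)
      (hC : SRed (F ∪ M) C ∨ DRed lt F (F ∪ M) C) : DomDerivation lt F (C :: L)

/-- substitution redundancy alone -/
lemma DomDerivation.of_derivation {lt : (V → Bool) → (V → Bool) → Prop}
    {F : Set (Finset (V × Bool))} {L : List (Finset (V × Bool))} (h : SR.Derivation F L) :
    DomDerivation lt F L := by
  induction h with
  | nil => exact DomDerivation.nil
  | cons _ M hM hC ih => exact DomDerivation.cons ih M hM (Or.inl hC)

end Pool.Agent.J4H24.SR
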