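import Pool.Agent.J4H24.PR.Sound
import Pool.Agent.J4H24.SR.Defs

/-!
# Locally consistent assignments with a prescribed value of a linear form
-/

namespace Pool.Agent.J4H24.SR

open Finset Pool.Agent.J4H24.PR

set_option linter.unusedSectionVars false

variable {V ι : Type*} [Fintype V] [DecidableEq V] [DecidableEq ι]
  {A : ι → V → ZMod 2} {b : ι → ZMod 2} {K s w : ℕ} {D0 : Finset V}

/-- the value of a linear form -/
def lf (g : V → ZMod 2) (y : V → Bool) : ZMod 2 := ∑ v, g v * bz (y v)

lemma lf_congr (g : V → ZMod 2) {x y : V → Bool} (h : ∀ v, g v ≠ 0 → x v = y v) :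
    lf g x = lf g y := by
  unfold lf
  refine Finset.sum_congr rfl fun v _ => ?_
  by_cases hv : g v = 0
  · rw [hv, zero_mul, zero_mul]
  · rw [h v hv]

lemma lf_add (g h : V → ZMod 2) (y : V → Bool) :
    lf (fun v => g v + h v) y = lf g y + lf h y := by
  unfold lf
  rw [← Finset.sum_add_distrib]
  exact Finset.sum_congr rfl fun v _ => add_mul _ _ _

lemma lf_update (g : V → ZMod 2) (y : V → Bool) (u : V) (c : Bool) :
    lf g (Function.update y u c) = lf g (Function.update y u false) + g u * bz c := by
  unfold lf
  rw [← Finset.add_sum_erase univ _ (mem_univ u),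
    ← Finset.add_sum_erase univ (fun v => g v * bz (Function.update y u false v)) (mem_univ u)]
  have h : ∑ v ∈ univ.erase u, g v * bz (Function.update y u c v) =
      ∑ v ∈ univ.erase u, g v * bz (Function.update y u false v) := by
    refine Finset.sum_congr rfl fun v hv => ?_
    have hne : v ≠ u := (Finset.mem_erase.mp hv).1
    rw [Function.update_of_ne hne, Function.update_of_ne hne]
  rw [h]
  simp [bz]
  ring

lemma T_eq_lf (J : Finset ι) (y : V → Bool) : T A J y = lf (AJ A J) y := rfl

/-- A linear form which agrees with no sum of at most `K` equations outside `D` takes both values at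
locally consistent extensions. -/
theorem force (hP : P1 A K s D0) {D : Finset V} {x : V → Bool} (hx : LC A b K D x)
    (W : Finset V) : ∀ g : V → ZMod 2, (D \ D0).card + W.card ≤ s →
      (∀ v, g v ≠ 0 → v ∈ D ∪ W) →
      (∀ J : Finset ι, J.card ≤ K → ∃ v, v ∉ D ∧ AJ A J v ≠ g v) →
      ∀ β : ZMod 2, ∃ y, LC A b K (D ∪ W) y ∧ (∀ v ∈ D, y v = x v) ∧ lf g y = β := by
  induction W using Finset.induction_on with
  | empty =>
    intro g _ hg hfree
    obtain ⟨v, hvD, hv⟩ := hfree ∅ (by simp)
    have h1 : g v ≠ 0 := by
      intro h0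
      apply hv
      rw [h0]
      simp [AJ]
    have := hg v h1
    simp only [Finset.union_empty] at this
    exact absurd this hvD
  | insert u W hu ih =>
    intro g hs hg hfree β
    rw [Finset.card_insert_of_notMem hu] at hs
    by_cases huD : u ∈ D
    · have hDW : D ∪ insert u W = D ∪ W := by
        rw [Finset.union_insert, Finset.insert_eq_self.mpr (Finset.mem_union_left _ huD)]
      rw [hDW] at hg ⊢
      exact ih g (by omega) hg hfree β
    have huDW : u ∉ D ∪ W := by
      rw [Finset.mem_union]
      tauto
    have hcDW : ((D ∪ W) \ D0).card ≤ s := by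
      have : (D ∪ W) \ D0 ⊆ (D \ D0) ∪ W := by
        intro v hv
        simp only [Finset.mem_sdiff, Finset.mem_union] at hv ⊢
        tauto
      have h2 := (Finset.card_le_card this).trans (Finset.card_union_le _ _)
      omega
    rcases zmod2_cases (g u) with hgu | hgu
    · -- the variable does not occur in the form
      obtain ⟨y, hy, hyx, hlf⟩ := ih g (by omega) (by
        intro v hv
        have := hg v hv
        rw [Finset.union_insert] at this
        rcases Finset.mem_insert.mp this with rfl | h
        · exact absurd hgu hv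
        · exact h) hfree β
      obtain ⟨c, hc⟩ := hy.extend hP hcDW huDW
      refine ⟨Function.update y u c, ?_, ?_, ?_⟩
      · rw [Finset.union_insert]
        exact hc
      · intro v hv
        rw [Function.update_of_ne (by rintro rfl; exact huD hv)]
        exact hyx v hv
      · rw [← hlf]
        refine lf_congr g fun v hv => ?_
        rw [Function.update_of_ne (by rintro rfl; exact hv hgu)]
    by_cases hJ : ∃ J1 : Finset ι, J1.card ≤ K ∧ (∀ v, AJ A J1 v ≠ 0 → v ∈ D ∪ insert u W) ∧
        AJ A J1 u ≠ 0
    · -- the variable is forced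
      obtain ⟨J1, hJ1, hsup, hJu⟩ := hJ
      have hJu1 : AJ A J1 u = 1 := (zmod2_cases _).resolve_left hJu
      have hg' : ∀ v, g v + AJ A J1 v ≠ 0 → v ∈ D ∪ W := by
        intro v hv
        have huv : v ≠ u := by
          rintro rfl
          rw [hgu, hJu1] at hv
          exact hv (by decide)
        have h1 : v ∈ D ∪ insert u W := by
          by_cases hgv : g v = 0
          · rw [hgv, zero_add] at hv
            exact hsup v hv
          · exact hg v hgv
        rw [Finset.union_insert] at h1
        exact (Finset.mem_insert.mp h1).resolve_left huv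
      obtain ⟨y, hy, hyx, hlf⟩ := ih (fun v => g v + AJ A J1 v) (by omega) hg' (by
        intro J hJ
        by_contra hcon
        push Not at hcon
        have hsym : ∀ v, v ∉ D → AJ A (symmDiff J J1) v = g v := by
          intro v hv
          rw [AJ_symmDiff, hcon v hv, add_assoc]
          have : ∀ z : ZMod 2, z + z = 0 := by decide
          rw [this, add_zero]
        obtain ⟨v, hvD, hv⟩ := hfree (symmDiff J J1) (by
          refine hP _ ?_ ?_
          · calc (symmDiff J J1).card ≤ (J ∪ J1).card := by
                  apply Finset.card_le_card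
                  intro j hj
                  rw [Finset.mem_symmDiff] at hj
                  rw [Finset.mem_union]
                  rcases hj with hj | hj
                  · exact Or.inl hj.1
                  · exact Or.inr hj.1
              _ ≤ J.card + J1.card := Finset.card_union_le _ _
              _ ≤ 2 * K := by omega
          · have hsub : (univ.filter fun v => AJ A (symmDiff J J1) v ≠ 0 ∧ v ∉ D0) ⊆
                (D \ D0) ∪ insert u W := by
              intro v hv
              simp only [Finset.mem_filter, Finset.mem_univ, true_and] at hv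
              rw [Finset.mem_union, Finset.mem_sdiff]
              by_cases hvD : v ∈ D
              · exact Or.inl ⟨hvD, hv.2⟩
              · right
                rw [hsym v hvD] at hv
                have := hg v hv.1
                rw [Finset.mem_union] at this
                exact this.resolve_left hvD
            have h2 := (Finset.card_le_card hsub).trans (Finset.card_union_le _ _)
            rw [Finset.card_insert_of_notMem hu] at h2
            omega)
        exact hv (hsym v hvD)) (β + ∑ j ∈ J1, b j)
      obtain ⟨c, hc⟩ := hy.extend hP hcDW huDW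
      refine ⟨Function.update y u c, ?_, ?_, ?_⟩
      · rw [Finset.union_insert]
        exact hc
      · intro v hv
        rw [Function.update_of_ne (by rintro rfl; exact huD hv)]
        exact hyx v hv
      · have h1 := hc J1 hJ1 (by rw [← Finset.union_insert]; exact hsup)
        have h2 : lf (fun v => g v + AJ A J1 v) (Function.update y u c) =
            lf (fun v => g v + AJ A J1 v) y := by
          refine lf_congr _ fun v hv => ?_
          rw [Function.update_of_ne]
          rintro rfl
          rw [hgu, hJu1] at hv
          exact hv (by decide)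
        rw [lf_add, hlf] at h2
        rw [T_eq_lf] at h1
        rw [h1] at h2
        have h3 := add_right_cancel h2
        exact h3
    · -- the variable is free
      push Not at hJ
      obtain ⟨y, hy, hyx⟩ := hx.extend_many hP W (by omega)
      have hLC : ∀ c, LC A b K (insert u (D ∪ W)) (Function.update y u c) := by
        intro c J hJK hs'
        have h0 : AJ A J u = 0 := by
          by_contra hne
          exact hne (hJ J hJK (by rw [Finset.union_insert]; exact hs'))
        rw [← hy J hJK fun v hv => ?_]
        · refine T_congr A J fun v hv => ?_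
          rw [Function.update_of_ne]
          rintro rfl
          exact hv h0
        · refine (Finset.mem_insert.mp (hs' v hv)).resolve_left ?_
          rintro rfl
          exact hv h0
      obtain ⟨c, hc⟩ : ∃ c, lf g (Function.update y u c) = β := by
        by_cases h : lf g (Function.update y u false) = β
        · exact ⟨false, h⟩
        · refine ⟨true, ?_⟩
          rw [lf_update, hgu, zmod2_ne h]
          simp [bz]
          rw [add_assoc]
          have : (1 : ZMod 2) + 1 = 0 := by decide
          rw [this, add_zero]
      refine ⟨Function.update y u c, ?_, ?_, hc⟩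
      · rw [Finset.union_insert]
        exact hLC c
      · intro v hv
        rw [Function.update_of_ne (by rintro rfl; exact huD hv)]
        exact hyx v hv

/-- the variables of the equations of `J` -/
def nbA (A : ι → V → ZMod 2) (J : Finset ι) : Finset V := J.biUnion (vars A)

lemma AJ_ne_mem {J : Finset ι} {v : V} (h : AJ A J v ≠ 0) : v ∈ nbA A J := by
  obtain ⟨j, hj, hjv⟩ := Finset.exists_ne_zero_of_sum_ne_zero h
  exact Finset.mem_biUnion.mpr ⟨j, hj, mem_vars.mpr hjv⟩

/-- every variable of `J` outside `D` which is not in the support of the sum occurs twice -/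
lemma two_card_nbA {c : ℕ} (hc : ∀ i, (vars A i).card ≤ c) (J : Finset ι) (D : Finset V) :
    2 * (nbA A J \ D).card ≤ c * J.card + (univ.filter fun v => AJ A J v ≠ 0 ∧ v ∉ D).card := by
  classical
  set cnt : V → ℕ := fun v => ∑ i ∈ J, if A i v ≠ 0 then 1 else 0 with hcnt
  have h1 : ∑ v, cnt v ≤ c * J.card := by
    simp only [hcnt]
    rw [Finset.sum_comm]
    have h2 : ∀ i ∈ J, ∑ v, (if A i v ≠ 0 then 1 else 0) ≤ c := by
      intro i _
      refine le_trans (le_of_eq ?_) (hc i)
      rw [Finset.sum_boole]
      simp [vars]
    refine (Finset.sum_le_sum h2).trans ?_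
    rw [Finset.sum_const, smul_eq_mul, mul_comm]
  have h2 : ∀ v, AJ A J v = (cnt v : ZMod 2) := by
    intro v
    simp only [AJ, hcnt]
    push_cast
    refine Finset.sum_congr rfl fun i _ => ?_
    rcases zmod2_cases (A i v) with h | h <;> rw [h] <;> simp
  have h3 : ∀ v ∈ nbA A J \ D, 2 ≤ cnt v + if AJ A J v ≠ 0 ∧ v ∉ D then 1 else 0 := by
    intro v hv
    rw [Finset.mem_sdiff] at hv
    have hpos : 1 ≤ cnt v := by
      obtain ⟨j, hj, hjv⟩ := Finset.mem_biUnion.mp hv.1
      rw [mem_vars] at hjv
      have : (if A j v ≠ 0 then 1 else 0) ≤ cnt v :=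
        Finset.single_le_sum (f := fun i => if A i v ≠ 0 then 1 else 0)
          (fun _ _ => Nat.zero_le _) hj
      rw [if_pos hjv] at this
      exact this
    by_cases hs : AJ A J v ≠ 0 ∧ v ∉ D
    · rw [if_pos hs]
      omega
    · rw [if_neg hs, add_zero]
      by_contra hlt
      have hc1 : cnt v = 1 := by omega
      apply hs
      refine ⟨?_, hv.2⟩
      rw [h2, hc1]
      decide
  calc 2 * (nbA A J \ D).card = ∑ v ∈ nbA A J \ D, 2 := by simp [mul_comm]
    _ ≤ ∑ v ∈ nbA A J \ D, (cnt v + if AJ A J v ≠ 0 ∧ v ∉ D then 1 else 0) :=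
        Finset.sum_le_sum h3
    _ = ∑ v ∈ nbA A J \ D, cnt v + ∑ v ∈ nbA A J \ D,
          (if AJ A J v ≠ 0 ∧ v ∉ D then 1 else 0) := Finset.sum_add_distrib
    _ ≤ ∑ v, cnt v + ∑ v, (if AJ A J v ≠ 0 ∧ v ∉ D then 1 else 0) :=
        Nat.add_le_add (Finset.sum_le_sum_of_subset (Finset.subset_univ _))
          (Finset.sum_le_sum_of_subset (Finset.subset_univ _))
    _ ≤ _ := by
        refine Nat.add_le_add h1 (le_of_eq ?_)
        rw [Finset.sum_boole]
        simp

/-- the expansion outside the restriction -/
def Exp (A : ι → V → ZMod 2) (K e0 : ℕ) (D0 : Finset V) : Prop :=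
  ∀ J : Finset ι, J.card ≤ 2 * K → e0 * J.card ≤ (nbA A J \ D0).card

/-- the closure of a small set of variables -/
theorem exists_closure {e1 : ℕ} (hE : Exp A K (e1 + 1) D0) (U : Finset V) (hU : U.card ≤ K) :
    ∃ Js : Finset ι, Js.card ≤ U.card ∧ ∀ J : Finset ι, J.card ≤ K → Disjoint J Js →
      J.Nonempty → e1 * J.card + 1 ≤ (nbA A J \ (D0 ∪ U ∪ nbA A Js)).card := by
  classical
  -- sets with few new variables are small
  have hsmall : ∀ J : Finset ι, J.card ≤ 2 * K → (nbA A J \ (D0 ∪ U)).card ≤ e1 * J.card →
      J.card ≤ U.card := by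
    intro J hJ hcard
    have h1 := hE J hJ
    have h2 : nbA A J \ D0 ⊆ (nbA A J \ (D0 ∪ U)) ∪ U := by
      intro v hv
      simp only [Finset.mem_sdiff, Finset.mem_union] at hv ⊢
      tauto
    have h3 := (Finset.card_le_card h2).trans (Finset.card_union_le _ _)
    have h4 : (e1 + 1) * J.card = e1 * J.card + J.card := by ring
    omega
  -- a maximal one
  have hex : ∃ N, ∀ J : Finset ι, J.card ≤ 2 * K → (nbA A J \ (D0 ∪ U)).card ≤ e1 * J.card →
      J.card ≤ N := ⟨U.card, hsmall⟩
  have hmax : ∃ Js : Finset ι, Js.card ≤ 2 * K ∧ (nbA A Js \ (D0 ∪ U)).card ≤ e1 * Js.card ∧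
      ∀ J : Finset ι, J.card ≤ 2 * K → (nbA A J \ (D0 ∪ U)).card ≤ e1 * J.card →
        J.card ≤ Js.card := by
    have hfind := Nat.find_spec hex
    by_cases h0 : Nat.find hex = 0
    · refine ⟨∅, by simp, by simp [nbA], fun J h1 h2 => ?_⟩
      have := hfind J h1 h2
      rw [h0] at this
      simpa using this
    · obtain ⟨N, hN⟩ := Nat.exists_eq_succ_of_ne_zero h0
      have hlt : N < Nat.find hex := by omega
      have := Nat.find_min hex hlt
      push Not at this
      obtain ⟨J, h1, h2, h3⟩ := this
      refine ⟨J, h1, h2, fun J' h1' h2' => ?_⟩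
      have := hfind J' h1' h2'
      omega
  obtain ⟨Js, hJs1, hJs2, hJs3⟩ := hmax
  have hJsU := hsmall Js hJs1 hJs2
  refine ⟨Js, hJsU, fun J hJ hd hne => ?_⟩
  by_contra hcon
  push Not at hcon
  have hcard : (J ∪ Js).card = J.card + Js.card := Finset.card_union_of_disjoint hd
  have h1 : (nbA A (J ∪ Js) \ (D0 ∪ U)).card ≤ e1 * (J ∪ Js).card := by
    have hsub : nbA A (J ∪ Js) \ (D0 ∪ U) ⊆
        (nbA A J \ (D0 ∪ U ∪ nbA A Js)) ∪ (nbA A Js \ (D0 ∪ U)) := by
      intro v hv
      have hu : nbA A (J ∪ Js) = nbA A J ∪ nbA A Js := by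
        unfold nbA
        exact Finset.union_biUnion
      rw [hu] at hv
      simp only [Finset.mem_sdiff, Finset.mem_union] at hv ⊢
      tauto
    have h2 := (Finset.card_le_card hsub).trans (Finset.card_union_le _ _)
    rw [hcard, Nat.mul_add]
    omega
  have h2 := hJs3 (J ∪ Js) (by omega) h1
  have h3 := hne.card_pos
  omega

end Pool.Agent.J4H24.SR
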