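import Pool.Agent.J4H24.PR.Frac

/-!
# Fixed-point free maps move a quarter of the points off themselves
-/

namespace Pool.Agent.J4H24.SR

open Finset Pool.Agent.J4H24

variable {V : Type*} [Fintype V] [DecidableEq V]

lemma fr_bool (c : Bool) : fr (fun x : Bool => x = c) = 1 / 2 := by
  unfold fr
  cases c <;> simp

lemma fr_two {v u : V} (h : v ≠ u) :
    fr (fun S : V → Bool => S v = true ∧ S u = false) = 1 / 4 := by
  classical
  have h1 : fr (fun S : V → Bool => S v = true ∧ S u = false) =
      ∏ i, fr (fun x : Bool => (i = v → x = true) ∧ (i = u → x = false)) := by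
    rw [← fr_pi]
    refine fr_congr fun S => ?_
    constructor
    · rintro ⟨h1, h2⟩ i
      exact ⟨fun hi => by rw [hi]; exact h1, fun hi => by rw [hi]; exact h2⟩
    · intro hS
      exact ⟨(hS v).1 rfl, (hS u).2 rfl⟩
  rw [h1, ← Finset.mul_prod_erase univ _ (mem_univ v),
    ← Finset.mul_prod_erase (univ.erase v) _ (Finset.mem_erase.mpr ⟨h.symm, mem_univ u⟩)]
  have h2 : fr (fun x : Bool => (v = v → x = true) ∧ (v = u → x = false)) = 1 / 2 := by
    rw [← fr_bool true]
    exact fr_congr fun x => by simp [h]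
  have h3 : fr (fun x : Bool => (u = v → x = true) ∧ (u = u → x = false)) = 1 / 2 := by
    rw [← fr_bool false]
    exact fr_congr fun x => by simp [h.symm]
  have h4 : ∏ i ∈ (univ.erase v).erase u,
      fr (fun x : Bool => (i = v → x = true) ∧ (i = u → x = false)) = 1 := by
    refine Finset.prod_eq_one fun i hi => ?_
    simp only [Finset.mem_erase, Finset.mem_univ, and_true] at hi
    rw [← fr_true (Ω := Bool)]
    exact fr_congr fun x => by simp [hi.1, hi.2]
  rw [h2, h3, h4]
  norm_num

theorem exists_quarter (M : Finset V) (π : V → V) (hπ : ∀ v ∈ M, π v ≠ v) :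
    ∃ P ⊆ M, M.card ≤ 4 * P.card ∧ ∀ v ∈ P, π v ∉ P := by
  classical
  have h1 : ∑ v ∈ M, fr (fun S : V → Bool => S v = true ∧ S (π v) = false) = M.card / 4 := by
    rw [Finset.sum_congr rfl fun v hv => fr_two (hπ v hv).symm, Finset.sum_const, nsmul_eq_mul]
    ring
  have h2 : ∑ v ∈ M, fr (fun S : V → Bool => S v = true ∧ S (π v) = false) =
      (∑ S : V → Bool, ((M.filter fun v => S v = true ∧ S (π v) = false).card : ℝ)) /
        Fintype.card (V → Bool) := by
    unfold fr
    rw [← Finset.sum_div, Finset.sum_comm]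
    congr 1
    refine Finset.sum_congr rfl fun S _ => ?_
    rw [← Finset.sum_boole]
    refine Finset.sum_congr rfl fun v _ => ?_
    by_cases h : S v = true ∧ S (π v) = false <;> simp [h]
  have hpos : (0 : ℝ) < Fintype.card (V → Bool) := by exact_mod_cast Fintype.card_pos
  obtain ⟨S, hS⟩ : ∃ S : V → Bool, M.card ≤
      4 * (M.filter fun v => S v = true ∧ S (π v) = false).card := by
    by_contra hcon
    push Not at hcon
    have h3 : ∑ S : V → Bool, ((M.filter fun v => S v = true ∧ S (π v) = false).card : ℝ) <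
        ∑ S : V → Bool, (M.card : ℝ) / 4 := by
      refine Finset.sum_lt_sum_of_nonempty ⟨fun _ => true, mem_univ _⟩ fun S _ => ?_
      rw [lt_div_iff₀ (by norm_num)]
      have := hcon S
      have h4 : ((4 * (M.filter fun v => S v = true ∧ S (π v) = false).card : ℕ) : ℝ) <
          (M.card : ℝ) := by exact_mod_cast this
      push_cast at h4
      linarith
    rw [Finset.sum_const, Finset.card_univ, nsmul_eq_mul] at h3
    rw [h2, div_eq_iff hpos.ne'] at h1
    rw [h1] at h3
    linarith
  refine ⟨M.filter fun v => S v = true ∧ S (π v) = false, Finset.filter_subset _ _, hS, ?_⟩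
  intro v hv hv2
  rw [Finset.mem_filter] at hv hv2
  rw [hv.2.2] at hv2
  exact absurd hv2.2.1 (by decide)

end Pool.Agent.J4H24.SR
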