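import Pool.Agent.J4H24.SR.Step2
import Pool.Agent.J4H24.SR.DomDefs

/-!
# Dominance does not help for rigid expanding systems
-/

namespace Pool.Agent.J4H24.SR

open Finset Pool.Agent.J4H24.PR

set_option linter.unusedSectionVars false

variable {V ι : Type*} [Fintype V] [DecidableEq V] [DecidableEq ι]
  {A : ι → V → ZMod 2} {b : ι → ZMod 2} {K s w : ℕ} {D0 : Finset V} {x0 : V → Bool}

lemma app_eq_ev (τ : V → Bool ⊕ (V × Bool)) (y : V → Bool) : app τ y = ev τ y := by
  funext v
  unfold app ev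
  rfl

/-- a clause whose image is refuted is satisfied after the substitution -/
lemma sat_one (hP : P1 A K s D0) {Γ : Set (Finset (V × Bool))}
    (hΓ : ∀ D ∈ Γ, Good A b K D0 x0 D ∧ NS w D0 x0 D) {C : Finset (V × Bool)}
    {τ : V → Bool ⊕ (V × Bool)} {D : Finset (V × Bool)}
    (hτ : (∃ l ∈ D, sub τ l = Sum.inl true) ∨
      Refutes Γ {l | neg l ∈ C ∨ ∃ l' ∈ D, sub τ l' = Sum.inr (neg l)})
    {E : Finset V} {y : V → Bool} (h0E : D0 ⊆ E) (hy0 : ∀ v ∈ D0, y v = x0 v)
    (hs : (E \ D0).card + w ≤ s) (hLC : LC A b K E y) (hCE : ∀ l ∈ C, l.1 ∈ E ∧ y l.1 ≠ l.2)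
    (hDE : ∀ l ∈ D, tgs τ l.1 ⊆ E) :
    ∃ l ∈ D, ev τ y l.1 = l.2 := by
  rcases hτ with ⟨l, hl, h⟩ | href
  · refine ⟨l, hl, ?_⟩
    unfold sub at h
    unfold ev
    cases h' : τ l.1 with
    | inl e =>
      rw [h'] at h
      simp only [Sum.inl.injEq, beq_iff_eq] at h
      exact h
    | inr m =>
      rw [h'] at h
      simp at h
  · by_contra hcon
    push Not at hcon
    refine not_refutes hP hΓ h0E hy0 hs hLC ?_ href
    rintro l (hl | ⟨l', hl', hsub⟩)
    · obtain ⟨h1, h2⟩ := hCE _ hl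
      simp only [neg_fst, neg_snd] at h1 h2
      refine ⟨h1, ?_⟩
      cases h3 : y l.1 <;> cases h4 : l.2 <;> simp [h3, h4] at h2 ⊢
    · have h1 := hcon l' hl'
      have h2 := hDE l' hl'
      unfold sub at hsub
      unfold ev at h1
      unfold tgs at h2
      cases h' : τ l'.1 with
      | inl e =>
        rw [h'] at hsub
        simp at hsub
      | inr m =>
        rw [h'] at hsub h1 h2
        simp only [Sum.inr.injEq, neg] at hsub
        simp only [Finset.singleton_subset_iff] at h2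
        simp only at h1
        obtain ⟨h3, h4⟩ := Prod.mk.inj hsub
        rw [h3] at h1 h2
        refine ⟨h2, ?_⟩
        cases h5 : y l.1 <;> cases h6 : m.2 <;> cases h7 : l'.2 <;> cases h8 : l.2 <;>
          simp [h5, h6, h7, h8] at h1 h4 ⊢

variable {c e1 q q2 p0 f : ℕ}

/-- One step of a derivation by dominance. -/
theorem step_dom (hR : Rig A b c (e1 + 1) q q2 p0 f) (hf : 0 < f) (hq : 2 * q2 + 4 * p0 ≤ q)
    (hP : P1 A K s D0) (hK : 1 ≤ K) (hE : Exp A K (e1 + 1) D0) (hce : 3 * c < 4 * e1 + 2)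
    (hec : e1 ≤ c) (he : 2 ≤ e1) (hwK : w ≤ K) (hws : (c + 3) * w + (2 * c + 2) ≤ s)
    {lt : (V → Bool) → (V → Bool) → Prop} (hlt : ∀ y, ¬ lt y y)
    {Γ : Set (Finset (V × Bool))}
    (hΓ : ∀ D ∈ Γ, Good A b K D0 x0 D ∧ NS w D0 x0 D) {C : Finset (V × Bool)}
    (hCns : NS w D0 x0 C) (hC : DRed lt (sys A b) Γ C) : Good A b K D0 x0 C := by
  classical
  intro D x hD0 hx0 hLC hCD
  by_contra hfalse
  push Not at hfalse
  have hnar : (C.image Prod.fst).card ≤ w := by
    rcases hCns with h | ⟨l, hl, hl0, hl1⟩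
    · exact h
    · exact absurd (by rw [hx0 _ hl0, hl1]) (hfalse l hl)
  obtain ⟨Js, hJs, hcl⟩ := exists_closure hE (C.image Prod.fst) (hnar.trans hwK)
  have hnb : (nbA A Js).card ≤ c * w := by
    refine (Finset.card_biUnion_le.trans (Finset.sum_le_card_nsmul _ _ c fun i _ =>
      hR.card i)).trans ?_
    rw [smul_eq_mul, mul_comm]
    exact Nat.mul_le_mul_left _ (hJs.trans hnar)
  have hmul : (c + 3) * w = c * w + 3 * w := by ring
  have hLC0 : LC A b K (D0 ∪ C.image Prod.fst) x := hLC.mono (by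
    intro v hv
    rcases Finset.mem_union.mp hv with h | h
    · exact hD0 h
    · obtain ⟨l, hl, rfl⟩ := Finset.mem_image.mp h
      exact hCD l hl)
  have hcard0 : ((D0 ∪ C.image Prod.fst) \ D0).card ≤ w := by
    have := card_union_sdiff (D1 := D0) (W := C.image Prod.fst) (D0 := D0)
    rw [Finset.sdiff_self, Finset.card_empty] at this
    omega
  obtain ⟨x1, hx1, hx1x⟩ := hLC0.extend_many hP (nbA A Js) (by omega)
  have hcard1 : ((D0 ∪ C.image Prod.fst ∪ nbA A Js) \ D0).card ≤ w + c * w := by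
    have := card_union_sdiff (D1 := D0 ∪ C.image Prod.fst) (W := nbA A Js) (D0 := D0)
    omega
  have h01 : D0 ⊆ D0 ∪ C.image Prod.fst ∪ nbA A Js :=
    Finset.subset_union_left.trans Finset.subset_union_left
  obtain ⟨τ, hτ, hord⟩ := hC
  have hx10 : ∀ v ∈ D0, x1 v = x0 v := by
    intro v hv
    rw [hx1x v (Finset.mem_union_left _ hv), hx0 v hv]
  have hCx1 : ∀ l ∈ C, l.1 ∈ D0 ∪ C.image Prod.fst ∪ nbA A Js ∧ x1 l.1 ≠ l.2 := by
    intro l hl
    have h1 : l.1 ∈ D0 ∪ C.image Prod.fst :=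
      Finset.mem_union_right _ (Finset.mem_image_of_mem _ hl)
    refine ⟨Finset.mem_union_left _ h1, ?_⟩
    rw [hx1x _ h1]
    exact hfalse l hl
  obtain ⟨D1, hD1⟩ : ∃ D1, D1 = D0 ∪ C.image Prod.fst ∪ nbA A Js := ⟨_, rfl⟩
  rw [← hD1] at hx1 hcard1 h01 hCx1
  have hctx : Ctx A b K s w c e1 D0 D1 Js x1 τ :=
    { hP := hP
      hK := hK
      hce := hce
      hec := hec
      he := he
      h01 := h01
      hLC := hx1
      hJs := by rw [hD1]; exact Finset.subset_union_right
      hcl := by rw [hD1]; exact hcl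
      hs := by omega
      star := by
        intro i E y h1 h2 h3 h4 h5
        by_contra hne
        obtain ⟨l, hl, hl2⟩ := sat_one hP hΓ (hτ (cl A i (ev τ y)) ⟨i, _, hne, rfl⟩)
          (h01.trans h1)
          (fun v hv => by rw [h3 v (h01 hv), hx10 v hv]) h2 h4
          (fun l hl => ⟨h1 (hCx1 l hl).1, by rw [h3 _ (hCx1 l hl).1]; exact (hCx1 l hl).2⟩)
          (by
            intro l hl
            obtain ⟨v, hv, rfl⟩ := Finset.mem_image.mp hl
            exact (Finset.subset_biUnion_of_mem (tgs τ) hv).trans h5)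
        obtain ⟨v, hv, rfl⟩ := Finset.mem_image.mp hl
        simp at hl2 }
  have hun := hctx.unch hR hf hq
  -- the literals obtained by unit propagation
  have hforced : ∀ l, UP Γ {l | neg l ∈ C} l → Forced A b K D1 x1 l := fun l hl =>
    up_forced hP hΓ h01 hx10 (by omega) (by
      intro l' hl'
      obtain ⟨h1, h2⟩ := hCx1 _ hl'
      simp only [neg_fst, neg_snd] at h1 h2
      refine ⟨h1, ?_⟩
      cases h3 : x1 l'.1 <;> cases h4 : l'.2 <;> simp [h3, h4] at h2 ⊢) hl
  have hcons : ∀ v, v ∉ D1 → UP Γ {l | neg l ∈ C} (v, false) →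
      ¬ UP Γ {l | neg l ∈ C} (v, true) := by
    intro v hv h1 h2
    obtain ⟨e, hc⟩ := hx1.extend hP (by omega) hv
    have hag : ∀ u ∈ D1, Function.update x1 v e u = x1 u := by
      intro u hu
      have : u ≠ v := by
        rintro rfl
        exact hv hu
      rw [Function.update_of_ne this]
    have h3 := hforced _ h1 _ _ (Finset.subset_insert _ _) hag hc (Finset.mem_insert_self _ _)
    have h4 := hforced _ h2 _ _ (Finset.subset_insert _ _) hag hc (Finset.mem_insert_self _ _)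
    simp only at h3 h4
    rw [h3] at h4
    exact absurd h4 (by decide)
  obtain ⟨y, hy⟩ : ∃ y : V → Bool, y = fun v => if v ∈ D1 then x1 v else
    decide (UP Γ {l | neg l ∈ C} (v, true)) := ⟨_, rfl⟩
  have hyD : ∀ v ∈ D1, y v = x1 v := by
    intro v hv
    rw [hy]
    simp only [if_pos hv]
  have h1 := hord y (by
    rintro ⟨v, e⟩ hl
    by_cases hv : v ∈ D1
    · simp only
      rw [hyD v hv]
      exact hforced _ hl D1 x1 (le_refl _) (fun _ _ => rfl) hx1 hv
    · rw [hy]
      simp only [if_neg hv]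
      cases e
      · rw [decide_eq_false_iff_not]
        exact hcons v hv hl
      · rw [decide_eq_true_iff]
        exact hl)
  have h2 : app τ y = y := by
    rw [app_eq_ev]
    funext v
    exact (hun v).ev_eq hyD
  rw [h2] at h1
  exact hlt y h1

/-- All clauses of a derivation are locally implied, if the restriction satisfies the wide ones. -/
theorem dom_derivation_good (hR : Rig A b c (e1 + 1) q q2 p0 f) (hf : 0 < f)
    (hq : 2 * q2 + 4 * p0 ≤ q) (hP : P1 A K s D0) (hK : 1 ≤ K) (hE : Exp A K (e1 + 1) D0)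
    (hce : 3 * c < 4 * e1 + 2) (hec : e1 ≤ c) (he : 2 ≤ e1) (hcw : c ≤ w) (hwK : w ≤ K)
    (hws : (c + 3) * w + (2 * c + 2) ≤ s) {lt : (V → Bool) → (V → Bool) → Prop}
    (hlt : ∀ y, ¬ lt y y) {L : List (Finset (V × Bool))}
    (hL : DomDerivation lt (sys A b) L) (hns : ∀ C ∈ L, NS w D0 x0 C) :
    ∀ C ∈ L, Good A b K D0 x0 C := by
  induction hL with
  | nil => intro C hC; simp at hC
  | @cons C L hL M hM hC ih =>
    intro C' hC'
    rcases List.mem_cons.mp hC' with rfl | hC'
    · have hΓ : ∀ D ∈ sys A b ∪ M, Good A b K D0 x0 D ∧ NS w D0 x0 D := by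
        rintro D (hD | hD')
        · refine ⟨sys_good hK hD, Or.inl ?_⟩
          obtain ⟨i, θ, -, rfl⟩ := hD
          refine le_trans ?_ hcw
          refine le_trans ?_ (hR.card i)
          unfold cl
          rw [Finset.image_image]
          refine Finset.card_image_le
        · have hD := hM D hD'
          exact ⟨ih (fun C hC => hns C (List.mem_cons_of_mem _ hC)) D hD,
            hns D (List.mem_cons_of_mem _ hD)⟩
      rcases hC with hC | hC
      · exact step_good hR hf hq hP hK hE hce hec he hwK hws (Γ := sys A b ∪ M)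
          (fun D hD => Or.inl hD) hΓ (hns _ (by simp)) hC
      · exact step_dom hR hf hq hP hK hE hce hec he hwK hws hlt hΓ (hns _ (by simp)) hC
    · exact ih (fun C hC => hns C (List.mem_cons_of_mem _ hC)) C' hC'

/-- A refutation contains a wide clause which is not satisfied by the restriction. -/
theorem dom_exists_wide (hR : Rig A b c (e1 + 1) q q2 p0 f) (hf : 0 < f)
    (hq : 2 * q2 + 4 * p0 ≤ q) (hP : P1 A K s D0) (hK : 1 ≤ K) (hE : Exp A K (e1 + 1) D0)
    (hce : 3 * c < 4 * e1 + 2) (hec : e1 ≤ c) (he : 2 ≤ e1) (hcw : c ≤ w) (hwK : w ≤ K)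
    (hws : (c + 3) * w + (2 * c + 2) ≤ s)
    (hP2 : ∀ J : Finset ι, J.card ≤ K → (∀ v, AJ A J v ≠ 0 → v ∈ D0) → J = ∅)
    {lt : (V → Bool) → (V → Bool) → Prop} (hlt : ∀ y, ¬ lt y y)
    {L : List (Finset (V × Bool))} (hL : DomDerivation lt (sys A b) L) (hemp : ∅ ∈ L)
    (x0 : V → Bool) : ∃ C ∈ L, ¬ NS w D0 x0 C := by
  by_contra hcon
  push Not at hcon
  have hg := dom_derivation_good hR hf hq hP hK hE hce hec he hcw hwK hws hlt hL hcon ∅ hemp
  obtain ⟨l, hl, -⟩ := hg D0 x0 (le_refl _) (fun _ _ => rfl) (by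
    intro J hJ hs
    rw [hP2 J hJ hs]
    simp [T, AJ]) (by simp)
  simp at hl

end Pool.Agent.J4H24.SR
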