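import Pool.Agent.J4H24.SR.Main
import Pool.Agent.J4H24.SR.Step3

/-!
# The lower bound for substitution redundancy and dominance without new variables
-/

namespace Pool.Agent.J4H24.SR

open Finset Pool.Agent.J4H24 Pool.Agent.J4H24.PR

set_option linter.unusedSectionVars false

/-- the lower bound for the systems -/
theorem dom_length_bound {d n t m c : ℕ} {η : ℝ} (hd : 9 ≤ d) (hc : c = 12 * d + 17)
    (h1 : t ^ (4 * d + 4) ≤ n) (h2 : n < (t + 1) ^ (4 * d + 4))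
    (hmR : (m : ℝ) = 20 * 32 ^ c * (n : ℝ) ^ 2) (ht : 8 * (c + 4) ≤ t)
    (ht6 : 20 * (32 : ℝ) ^ c * 4 ^ (4 * d + 4) * 2 ^ c * 1 ^ d * 4 ≤ t)
    (hη : 19 ≤ ((4 * d + 4 : ℕ) : ℝ) * η) (hη0 : 0 < η)
    {A : Fin m → Fin n → ZMod 2} {b : Fin m → ZMod 2}
    (hR : Rig A b c (9 * d + 17) (n / 2) (n / 8) (n / 16) (n / t + 1))
    (hE : ∀ J : Finset (Fin m), J.card ≤ 2 * (n / t ^ 9) →
        (c - 2 * d) * J.card ≤ (supp A J).card)
    {lt : (Fin n → Bool) → (Fin n → Bool) → Prop} (hlt : ∀ y, ¬ lt y y)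
    (L : List (Finset (Fin n × Bool))) (hL : DomDerivation lt (sys A b) L) (he : ∅ ∈ L) :
    (2 : ℝ) ^ ((n : ℝ) ^ (1 - η)) ≤ L.length := by
  classical
  have htpos : 0 < t := by omega
  have htR0 : (1 : ℝ) ≤ t := by exact_mod_cast (show 1 ≤ t by omega)
  have ht0 : (0 : ℝ) < t := by linarith
  have hn1 : 1 ≤ n := le_trans (Nat.one_le_pow _ _ (by omega)) h1
  have hnR : (1 : ℝ) ≤ n := by exact_mod_cast hn1
  have h1R : (t : ℝ) ^ (4 * d + 4) ≤ n := by exact_mod_cast h1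
  have h2R : (n : ℝ) ≤ (2 * t) ^ (4 * d + 4) := by
    have : n ≤ (2 * t) ^ (4 * d + 4) := h2.le.trans (Nat.pow_le_pow_left (by omega) _)
    exact_mod_cast this
  obtain ⟨t9, ht9⟩ : ∃ t9, t9 = t ^ 9 := ⟨_, rfl⟩
  have ht9R : (t9 : ℝ) = (t : ℝ) ^ 9 := by rw [ht9]; push_cast; rfl
  rw [← ht9] at hE
  have ht9pos : 0 < t9 := by rw [ht9]; positivity
  have hnz : NeZero t9 := ⟨by omega⟩
  obtain ⟨K, hK⟩ : ∃ K, K = n / t9 := ⟨_, rfl⟩
  rw [← hK] at hE
  obtain ⟨w, hw⟩ : ∃ w, w = K / (c + 4) := ⟨_, rfl⟩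
  -- sizes
  have hKt : t ≤ K := by
    rw [hK, Nat.le_div_iff_mul_le ht9pos, ht9]
    refine le_trans ?_ h1
    rw [← pow_succ']
    exact Nat.pow_le_pow_right htpos (by omega)
  have hKt2 : t * t ≤ K := by
    rw [hK, Nat.le_div_iff_mul_le ht9pos, ht9]
    refine le_trans ?_ h1
    have : t * t * t ^ 9 = t ^ 11 := by ring
    rw [this]
    exact Nat.pow_le_pow_right htpos (by omega)
  have hwt : t ≤ w := by
    rw [hw, Nat.le_div_iff_mul_le (by omega)]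
    refine le_trans (Nat.mul_le_mul_left _ ?_) hKt2
    omega
  have hwK : (c + 4) * w ≤ K := by
    rw [hw, mul_comm]
    exact Nat.div_mul_le_self _ _
  have hmul : (c + 4) * w = (c + 3) * w + w := by ring
  have hKn : K ≤ n := by
    rw [hK]
    exact Nat.div_le_self _ _
  have hlen : (1 : ℝ) / 2 ≤ L.length * Real.exp (-(w / (2 * t9))) := by
    by_contra hcon
    push Not at hcon
    obtain ⟨D0, x0, g0, g1, g2, g3⟩ := exists_res (t := t9) (ι := Fin m) (A := A) (K := K)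
      (w := w) (c := c) (d := d) (by omega) (by omega) hR.card hE (by
        rw [Fintype.card_fin, hmR]
        have h3 : 1 / (t9 : ℝ) ≤ 1 / t ^ 9 := by rw [ht9R]
        have h4 := est5 (C := 20 * (32 : ℝ) ^ c) (a := 2 ^ c) (y := 1) (x := 1 / (t9 : ℝ))
          (e := d) (r := 9) htR0 (by linarith) h2R (by positivity) (by norm_num) h3
          (by positivity) (by positivity) (by omega)
        have h5 : 20 * (32 : ℝ) ^ c * 4 ^ (4 * d + 4) * 2 ^ c * 1 ^ d / t ≤ 1 / 4 := by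
          rw [div_le_iff₀ ht0]
          linarith
        linarith) L hcon
    have he' : c - 3 * d = (9 * d + 16) + 1 := by omega
    rw [he'] at g0
    obtain ⟨C, hC, hns⟩ := SR.dom_exists_wide (w := w) (e1 := 9 * d + 16) (K := K) (s := K)
      (D0 := D0) (c := c) hR (Nat.succ_pos _) (by omega) g1 (by omega) g0 (by omega) (by omega)
      (by omega) (by omega) (by
        have : w ≤ (c + 4) * w := Nat.le_mul_of_pos_left _ (by omega)
        omega) (by omega) g2 hlt hL he x0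
    exact hns (g3 C hC)
  -- the computation
  have hw1 : n ≤ 4 * (c + 4) * w * t9 := by
    have h3 : n < (K + 1) * t9 := by
      rw [hK, mul_comm]
      exact Nat.lt_mul_div_succ n ht9pos
    have h4 : K < (w + 1) * (c + 4) := by
      rw [hw, mul_comm]
      exact Nat.lt_mul_div_succ K (by omega)
    have h5 : K + 1 ≤ 4 * (c + 4) * w := by
      have h6 : (w + 1) * (c + 4) ≤ (2 * w) * (c + 4) := Nat.mul_le_mul_right _ (by omega)
      have h7 : 4 * (c + 4) * w = (2 * w) * (c + 4) + (2 * w) * (c + 4) := by ring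
      have h8 : 0 < (2 * w) * (c + 4) := Nat.mul_pos (by omega) (by omega)
      omega
    exact h3.le.trans (Nat.mul_le_mul_right _ h5)
  have hw2 : (n : ℝ) ≤ 4 * (c + 4) * w * (t : ℝ) ^ 9 := by
    rw [← ht9R]
    exact_mod_cast hw1
  rw [ht9R] at hlen
  have htc : 8 * ((c : ℝ) + 4) ≤ t := by exact_mod_cast ht
  exact est_final (c := (c : ℝ) + 4) (T := 4 * d + 4) (by
    have : (0 : ℝ) ≤ c := Nat.cast_nonneg _
    linarith) htc h1R (by omega) hη hη0 hw2 hlen (Nat.cast_nonneg _)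

/-- the main theorem -/
theorem dom_main (η : ℝ) (hη : 0 < η) : ∃ k C N : ℕ, ∀ n ≥ N, ∃ F : Finset (Finset (Fin n × Bool)),
    ¬ Sat (F : Set (Finset (Fin n × Bool))) ∧ (∀ D ∈ F, D.card ≤ k) ∧ F.card ≤ C * n ^ 2 ∧
    ∀ lt : (Fin n → Bool) → (Fin n → Bool) → Prop, (∀ y, ¬ lt y y) →
      ∀ L : List (Finset (Fin n × Bool)), DomDerivation lt (F : Set (Finset (Fin n × Bool))) L →
        ∅ ∈ L → (2 : ℝ) ^ ((n : ℝ) ^ (1 - η)) ≤ L.length := by
  classical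
  obtain ⟨d, hd, hdη⟩ : ∃ d : ℕ, 9 ≤ d ∧ 19 ≤ ((4 * d + 4 : ℕ) : ℝ) * η := by
    obtain ⟨d0, hd0⟩ := exists_nat_ge (19 / η)
    refine ⟨d0 + 9, by omega, ?_⟩
    rw [div_le_iff₀ hη] at hd0
    refine hd0.trans (mul_le_mul_of_nonneg_right ?_ hη.le)
    push_cast
    have : (0 : ℝ) ≤ d0 := Nat.cast_nonneg _
    linarith
  obtain ⟨c, hc⟩ : ∃ c : ℕ, c = 12 * d + 17 := ⟨_, rfl⟩
  obtain ⟨T1, hT1⟩ := exists_nat_ge
    (20 * (32 : ℝ) ^ c * 4 ^ (4 * d + 4) * 2 ^ c * (2 * c) ^ (9 * d + 17) * (2 * 32 ^ c))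
  obtain ⟨T2, hT2⟩ := exists_nat_ge
    (20 * (32 : ℝ) ^ c * 4 ^ (4 * d + 4) * 3 ^ c * (2 * c) ^ d * 12)
  obtain ⟨T3, hT3⟩ := exists_nat_ge
    (20 * (32 : ℝ) ^ c * 4 ^ (4 * d + 4) * 2 ^ c * 1 ^ d * 4)
  obtain ⟨T, hT⟩ : ∃ T : ℕ, T = T1 + T2 + T3 + 8 * (c + 4) := ⟨_, rfl⟩
  refine ⟨c, 4 ^ c * (20 * 32 ^ c), T ^ (4 * d + 4), fun n hn => ?_⟩
  obtain ⟨t, h1, h2⟩ := exists_root n (4 * d + 4) (by omega)
  have ht : T ≤ t := by
    by_contra hcon
    push Not at hcon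
    have h3 : (t + 1) ^ (4 * d + 4) ≤ T ^ (4 * d + 4) := Nat.pow_le_pow_left hcon _
    omega
  have hmR : ((20 * 32 ^ c * n ^ 2 : ℕ) : ℝ) = 20 * 32 ^ c * (n : ℝ) ^ 2 := by
    push_cast
    ring
  obtain ⟨m, hm⟩ : ∃ m : ℕ, m = 20 * 32 ^ c * n ^ 2 := ⟨_, rfl⟩
  rw [← hm] at hmR
  have ht1 : (T1 : ℝ) ≤ t := by exact_mod_cast (show T1 ≤ t by omega)
  have ht2 : (T2 : ℝ) ≤ t := by exact_mod_cast (show T2 ≤ t by omega)
  have ht3 : (T3 : ℝ) ≤ t := by exact_mod_cast (show T3 ≤ t by omega)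
  obtain ⟨A, b, hR, hE⟩ := exists_system hd hc h1 h2 hmR (by omega) (hT1.trans ht1)
    (hT2.trans ht2)
  have hfin : (sys A b).Finite := Set.toFinite _
  have hF : (hfin.toFinset : Set (Finset (Fin n × Bool))) = sys A b := hfin.coe_toFinset
  refine ⟨hfin.toFinset, ?_, ?_, ?_, ?_⟩
  · rw [hF]
    rintro ⟨x, hx⟩
    obtain ⟨i, -, hi⟩ := hR.h2 univ (by
      rw [Finset.card_univ, Fintype.card_fin]
      exact Nat.div_le_self _ _) x
    obtain ⟨l, hl, hxl⟩ := hx (cl A i x) ⟨i, x, hi, rfl⟩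
    obtain ⟨v, -, rfl⟩ := Finset.mem_image.mp hl
    simp at hxl
  · intro D hD
    exact card_clause hR.card (hfin.mem_toFinset.mp hD)
  · have h3 := card_sys hR.card hfin.toFinset hF
    rw [Fintype.card_fin] at h3
    rw [mul_assoc, ← hm]
    exact h3
  · intro lt hlt L hL he
    rw [hF] at hL
    exact dom_length_bound hd hc h1 h2 hmR (by omega) (hT3.trans ht3) hdη hη hR hE hlt L hL he

end Pool.Agent.J4H24.SR
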