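import Pool.Agent.J4H24.SR.Step2
import Pool.Agent.J4H24.PR.RandRes

/-!
# Random systems of linear equations are rigid
-/

namespace Pool.Agent.J4H24.SR

open Finset Pool.Agent.J4H24 Pool.Agent.J4H24.PR

set_option linter.unusedSectionVars false

section mask

variable {X ι : Type*} [Fintype X] [Nonempty X] [Fintype ι] [DecidableEq ι]

open Classical in
/-- Independent points that are masked if they have the property `p`: if the property `G` of a
masked point, which depends on the points that are not masked, has small probability, then it is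
unlikely that all the masked points have it. -/
theorem fr_mask (p : X → Prop) (G : (ι → Option X) → X → Prop)
    (hG : ∀ σ, fr (fun x => p x ∧ G σ x) ≤ fr p / 2) :
    fr (fun ω : ι → X => ∀ i, p (ω i) →
      G (fun j => if p (ω j) then none else some (ω j)) (ω i)) ≤
      (1 - fr p / 2) ^ Fintype.card ι := by
  set Q : (ι → Option X) → ι → X → Prop := fun σ i x =>
    (σ i = none → p x ∧ G σ x) ∧ ∀ x', σ i = some x' → ¬ p x' ∧ x = x' with hQ
  set h : Option X → ℝ := fun o => match o with
    | none => fr p / 2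
    | some x' => if p x' then 0 else 1 / Fintype.card X with hh
  have hX : (0 : ℝ) < Fintype.card X := by exact_mod_cast Fintype.card_pos
  have h1 : fr (fun ω : ι → X => ∀ i, p (ω i) →
      G (fun j => if p (ω j) then none else some (ω j)) (ω i)) ≤
      fr (fun ω : ι → X => ∃ σ : ι → Option X, ∀ i, Q σ i (ω i)) := by
    refine fr_mono fun ω hω => ⟨fun j => if p (ω j) then none else some (ω j), fun i => ?_⟩
    rw [hQ]
    refine ⟨fun hn => ?_, fun x' hx' => ?_⟩
    · have hp : p (ω i) := by
        by_contra hp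
        simp [hp] at hn
      exact ⟨hp, hω i hp⟩
    · by_cases hp : p (ω i)
      · simp [hp] at hx'
      · simp only [hp, if_false, Option.some.injEq] at hx'
        rw [← hx']
        exact ⟨hp, rfl⟩
  have h2 : ∀ σ i, fr (Q σ i) ≤ h (σ i) := by
    intro σ i
    cases hσ : σ i with
    | none =>
      refine le_trans (fr_mono fun x hx => ?_) (hG σ)
      exact hx.1 hσ
    | some x' =>
      simp only [hh]
      by_cases hp : p x'
      · rw [if_pos hp]
        have : fr (Q σ i) = fr (fun _ : X => False) := by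
          refine fr_congr fun x => ?_
          constructor
          · intro hx
            exact (hx.2 x' hσ).1 hp
          · intro hx
            exact hx.elim
        rw [this]
        unfold fr
        simp
      · rw [if_neg hp]
        refine le_trans (fr_mono (q := fun x => x = x') fun x hx => (hx.2 x' hσ).2) ?_
        unfold fr
        simp
  refine h1.trans ((fr_exists _).trans ?_)
  have h3 : ∀ σ : ι → Option X, fr (fun ω : ι → X => ∀ i, Q σ i (ω i)) ≤ ∏ i, h (σ i) := by
    intro σ
    rw [fr_pi]
    exact Finset.prod_le_prod (fun i _ => fr_nonneg _) fun i _ => h2 σ i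
  refine (Finset.sum_le_sum fun σ _ => h3 σ).trans ?_
  rw [← Fintype.prod_sum (fun (_ : ι) (o : Option X) => h o), Finset.prod_const, Finset.card_univ]
  have h4 : ∑ o : Option X, h o = 1 - fr p / 2 := by
    rw [Fintype.sum_option]
    simp only [hh]
    have h5 : ∑ x : X, (if p x then (0 : ℝ) else 1 / Fintype.card X) = fr (fun x => ¬ p x) := by
      unfold fr
      rw [Finset.sum_div]
      refine Finset.sum_congr rfl fun x _ => ?_
      by_cases hp : p x <;> simp [hp]
    rw [h5, fr_not]
    ring
  rw [h4]

end mask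

variable {V ι : Type*} [Fintype V] [DecidableEq V] [DecidableEq ι]

lemma fr_false {Ω : Type*} [Fintype Ω] {p : Ω → Prop} (h : ∀ ω, ¬ p ω) : fr p = 0 := by
  unfold fr
  simp [h]

lemma sum_rowA {c : ℕ} (r : Fin c → V) : ∑ v, rowA r v = c := by
  unfold rowA
  rw [Finset.sum_comm]
  simp

lemma rowA_ne {c : ℕ} {r : Fin c → V} {v : V} (h : rowA r v ≠ 0) : ∃ k, r k = v := by
  by_contra hcon
  push Not at hcon
  apply h
  unfold rowA
  exact Finset.sum_eq_zero fun k _ => if_neg (hcon k)

lemma sum_rowA_mem {c : ℕ} (r : Fin c → V) (F : Finset V) :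
    ∑ v ∈ F, rowA r v = ((univ.filter fun k => r k ∈ F).card : ZMod 2) := by
  unfold rowA
  rw [Finset.sum_comm, ← Finset.sum_boole]
  refine Finset.sum_congr rfl fun k _ => ?_
  simp

lemma fr_row_le [Nonempty V] {c : ℕ} (S : Finset (Fin c)) (Y : Finset V) :
    fr (fun x : Row V c => ∀ k ∈ S, x.1 k ∈ Y) = ((Y.card : ℝ) / Fintype.card V) ^ S.card := by
  rw [fr_row_fst (c := c) (fun r => ∀ k ∈ S, r k ∈ Y), fr_pi_subset S (fun v : V => v ∈ Y), fr_mem]

lemma fr_row_all [Nonempty V] {c : ℕ} (Y : Finset V) :
    fr (fun x : Row V c => ∀ k, x.1 k ∈ Y) = ((Y.card : ℝ) / Fintype.card V) ^ c := by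
  have := fr_row_le (c := c) univ Y
  rw [Finset.card_univ, Fintype.card_fin] at this
  rw [← this]
  exact fr_congr fun x => by simp

/-- failure of the second rigidity condition -/
lemma fr_fail2 [Nonempty V] [Fintype ι] {c : ℕ} (q2 : ℕ) (hq : Fintype.card V ≤ 16 * q2) :
    fr (fun ω : ι → Row V c => ¬ ∀ Q : Finset V, q2 ≤ Q.card → ∀ y : V → Bool,
      ∃ i, vars (fun i => rowA (ω i).1) i ⊆ Q ∧
        PR.val (fun i => rowA (ω i).1) i y ≠ bz (ω i).2) ≤
      2 ^ Fintype.card V * 2 ^ Fintype.card V *
        Real.exp (-(Fintype.card ι * ((1 / 16) ^ c / 2))) := by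
  classical
  have hV : (0 : ℝ) < Fintype.card V := by exact_mod_cast Fintype.card_pos
  refine le_trans (fr_mono (q := fun ω : ι → Row V c => ∃ p : Finset V × (V → Bool),
    q2 ≤ p.1.card ∧ ∀ i, ¬ ((∀ k, (ω i).1 k ∈ p.1) ∧
      ∑ k, bz (p.2 ((ω i).1 k)) ≠ bz (ω i).2)) fun ω hω => ?_) ?_
  · push Not at hω
    obtain ⟨Q, hQ, y, hno⟩ := hω
    refine ⟨(Q, y), hQ, fun i hi => ?_⟩
    obtain ⟨hi1, hi2⟩ := hi
    simp only at hi1 hi2
    apply hi2
    rw [← val_rowA (fun i => (ω i).1) i y]
    refine hno i fun v hv => ?_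
    rw [mem_vars] at hv
    obtain ⟨k, hk⟩ := rowA_ne hv
    rw [← hk]
    exact hi1 k
  refine (fr_exists _).trans ?_
  have h2 : ∀ p : Finset V × (V → Bool), fr (fun ω : ι → Row V c => q2 ≤ p.1.card ∧
      ∀ i, ¬ ((∀ k, (ω i).1 k ∈ p.1) ∧ ∑ k, bz (p.2 ((ω i).1 k)) ≠ bz (ω i).2)) ≤
      Real.exp (-(Fintype.card ι * ((1 / 16) ^ c / 2))) := by
    intro p
    by_cases hp : q2 ≤ p.1.card
    · have h3 : fr (fun ω : ι → Row V c => q2 ≤ p.1.card ∧
          ∀ i, ¬ ((∀ k, (ω i).1 k ∈ p.1) ∧ ∑ k, bz (p.2 ((ω i).1 k)) ≠ bz (ω i).2)) =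
          (1 - fr (fun x : Row V c => (∀ k, x.1 k ∈ p.1) ∧
            ∑ k, bz (p.2 (x.1 k)) ≠ bz x.2)) ^ Fintype.card ι := by
        rw [← fr_not, ← Finset.card_univ, ← Finset.prod_const, ← fr_pi]
        exact fr_congr fun ω => by simp [hp]
      rw [h3]
      have h4 : (1 / 16 : ℝ) ^ c / 2 ≤ fr (fun x : Row V c => (∀ k, x.1 k ∈ p.1) ∧
            ∑ k, bz (p.2 (x.1 k)) ≠ bz x.2) := by
        have h5 : fr (fun x : (Fin c → V) × Bool => (∀ k, x.1 k ∈ p.1) ∧
            ∑ k, bz (p.2 (x.1 k)) ≠ bz x.2) =
            fr (fun x : (Fin c → V) × Bool => (∀ k, x.1 k ∈ p.1) ∧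
            x.2 = decide (∑ k, bz (p.2 (x.1 k)) = 0)) := by
          refine fr_congr fun x => ?_
          refine and_congr_right fun _ => ?_
          rcases zmod2_cases (∑ k, bz (p.2 (x.1 k))) with h | h <;> rw [h] <;> cases x.2 <;>
            simp [bz]
        rw [h5, fr_graph (fun r : Fin c → V => ∀ k, r k ∈ p.1)
          (fun r => decide (∑ k, bz (p.2 (r k)) = 0)),
          ← fr_row_fst (c := c) (fun r => ∀ k, r k ∈ p.1), fr_row_all]
        refine div_le_div_of_nonneg_right ?_ (by norm_num)
        refine pow_le_pow_left₀ (by norm_num) ?_ _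
        rw [div_le_div_iff₀ (by norm_num) hV]
        have : Fintype.card V ≤ p.1.card * 16 := by omega
        have h6 : (Fintype.card V : ℝ) ≤ p.1.card * 16 := by exact_mod_cast this
        linarith
      have h5 : fr (fun x : Row V c => (∀ k, x.1 k ∈ p.1) ∧
            ∑ k, bz (p.2 (x.1 k)) ≠ bz x.2) ≤ 1 :=
        fr_le_one _
      refine (pow_le_exp_neg h5 _).trans ?_
      refine Real.exp_le_exp.mpr (neg_le_neg ?_)
      exact mul_le_mul_of_nonneg_left h4 (Nat.cast_nonneg _)
    · rw [fr_false fun ω hω => hp hω.1]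
      exact (Real.exp_pos _).le
  refine (Finset.sum_le_sum fun p _ => h2 p).trans ?_
  rw [Finset.sum_const, Finset.card_univ, Fintype.card_prod, Fintype.card_finset,
    Fintype.card_fun, Fintype.card_bool, nsmul_eq_mul]
  push_cast
  exact le_rfl

/-- failure of the third rigidity condition -/
lemma fr_fail3 [Nonempty V] [Fintype ι] {c : ℕ} (k t f e : ℕ) (ht : 2 ≤ t) (hkc : k ≤ c)
    (hk : Odd k) (hc : Odd c) (hf : Fintype.card V ≤ t * f) (he : c + 1 < k + e) (he1 : 1 < e) :
    fr (fun ω : ι → Row V c => ¬ ∀ F : Finset V, f ≤ F.card →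
      ∃ i, ∑ v ∈ F, rowA (ω i).1 v = 1 ∧
        (vars (fun i => rowA (ω i).1) i \ F).card + 1 < e) ≤
      2 ^ Fintype.card V *
        Real.exp (-(Fintype.card ι * ((1 / (t : ℝ)) ^ k * (1 / 2) ^ c))) := by
  classical
  have hV : (0 : ℝ) < Fintype.card V := by exact_mod_cast Fintype.card_pos
  have htR : (2 : ℝ) ≤ t := by exact_mod_cast ht
  set S : Finset (Fin c) := univ.filter fun j => (j : ℕ) < k with hS
  have hScard : S.card = k := by
    have : S = (Finset.univ : Finset (Fin k)).map (Fin.castLEEmb hkc) := by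
      ext j
      simp only [hS, Finset.mem_filter, Finset.mem_univ, true_and, Finset.mem_map]
      constructor
      · intro hj
        exact ⟨⟨j, hj⟩, rfl⟩
      · rintro ⟨i, rfl⟩
        exact i.2
    rw [this, Finset.card_map, Finset.card_univ, Fintype.card_fin]
  -- the good event for one row
  set g : Finset V → (Fin c → V) → Prop := fun F r =>
    (2 * F.card ≤ Fintype.card V → ∀ j, (j ∈ S → r j ∈ F) ∧ (j ∉ S → r j ∉ F)) ∧
    (¬ 2 * F.card ≤ Fintype.card V → ∀ j, r j ∈ F) with hg
  have hgood : ∀ F (r : Fin c → V), g F r → ∑ v ∈ F, rowA r v = 1 ∧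
      (univ.filter (fun v => rowA r v ≠ 0) \ F).card + 1 < e := by
    intro F r hgF
    rw [sum_rowA_mem]
    by_cases h2 : 2 * F.card ≤ Fintype.card V
    · have h3 := hgF.1 h2
      have h4 : (univ.filter fun j => r j ∈ F) = S := by
        ext j
        simp only [Finset.mem_filter, Finset.mem_univ, true_and]
        constructor
        · intro hj
          by_contra hjS
          exact (h3 j).2 hjS hj
        · exact (h3 j).1
      rw [h4, hScard]
      constructor
      · rw [ZMod.natCast_eq_one_iff_odd]
        exact hk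
      · have h5 : (univ.filter (fun v => rowA r v ≠ 0) \ F) ⊆ (univ \ S).image r := by
          intro v hv
          simp only [Finset.mem_sdiff, Finset.mem_filter, Finset.mem_univ, true_and] at hv
          obtain ⟨j, hj⟩ := rowA_ne hv.1
          rw [Finset.mem_image]
          refine ⟨j, ?_, hj⟩
          rw [Finset.mem_sdiff]
          refine ⟨mem_univ _, fun hjS => ?_⟩
          rw [← hj] at hv
          exact hv.2 ((h3 j).1 hjS)
        have h6 := (Finset.card_le_card h5).trans Finset.card_image_le
        rw [Finset.card_sdiff_of_subset (Finset.subset_univ _), hScard, Finset.card_univ,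
          Fintype.card_fin] at h6
        omega
    · have h3 := hgF.2 h2
      have h4 : (univ.filter fun j => r j ∈ F) = univ := by
        ext j
        simp [h3 j]
      rw [h4, Finset.card_univ, Fintype.card_fin]
      constructor
      · rw [ZMod.natCast_eq_one_iff_odd]
        exact hc
      · have h5 : (univ.filter (fun v => rowA r v ≠ 0) \ F) = ∅ := by
          rw [Finset.sdiff_eq_empty_iff_subset]
          intro v hv
          simp only [Finset.mem_filter, Finset.mem_univ, true_and] at hv
          obtain ⟨j, hj⟩ := rowA_ne hv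
          rw [← hj]
          exact h3 j
        rw [h5, Finset.card_empty]
        omega
  have hprob : ∀ F : Finset V, f ≤ F.card → (1 / (t : ℝ)) ^ k * (1 / 2) ^ c ≤
      fr (fun x : Row V c => g F x.1) := by
    intro F hF
    rw [fr_row_fst (c := c) (g F)]
    by_cases h2 : 2 * F.card ≤ Fintype.card V
    · have h3 : fr (g F) = ∏ j : Fin c, fr (fun v : V => (j ∈ S → v ∈ F) ∧ (j ∉ S → v ∉ F)) := by
        rw [← fr_pi]
        refine fr_congr fun r => ?_
        simp only [hg, h2, not_true_eq_false, false_imp_iff, and_true, true_imp_iff]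
      rw [h3, ← Finset.prod_mul_prod_compl S]
      have h4 : (1 / (t : ℝ)) ^ k ≤
          ∏ j ∈ S, fr (fun v : V => (j ∈ S → v ∈ F) ∧ (j ∉ S → v ∉ F)) := by
        rw [← hScard, ← Finset.prod_const]
        refine Finset.prod_le_prod (fun _ _ => by positivity) fun j hj => ?_
        have h5 : fr (fun v : V => (j ∈ S → v ∈ F) ∧ (j ∉ S → v ∉ F)) = fr (fun v => v ∈ F) :=
          fr_congr fun v => by simp [hj]
        rw [h5, fr_mem, div_le_div_iff₀ (by linarith) hV]
        have h6 : Fintype.card V ≤ F.card * t :=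
          hf.trans (by rw [mul_comm]; exact Nat.mul_le_mul_right _ hF)
        have h7 : (Fintype.card V : ℝ) ≤ F.card * t := by exact_mod_cast h6
        linarith
      have h5 : (1 / 2 : ℝ) ^ c ≤
          ∏ j ∈ Sᶜ, fr (fun v : V => (j ∈ S → v ∈ F) ∧ (j ∉ S → v ∉ F)) := by
        calc (1 / 2 : ℝ) ^ c ≤ (1 / 2 : ℝ) ^ (Sᶜ).card := by
              refine pow_le_pow_of_le_one (by norm_num) (by norm_num) ?_
              refine (Finset.card_le_univ _).trans ?_
              simp
          _ = ∏ j ∈ Sᶜ, (1 / 2 : ℝ) := by rw [Finset.prod_const]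
          _ ≤ _ := by
              refine Finset.prod_le_prod (fun _ _ => by positivity) fun j hj => ?_
              have hj' : j ∉ S := Finset.mem_compl.mp hj
              have h6 : fr (fun v : V => (j ∈ S → v ∈ F) ∧ (j ∉ S → v ∉ F)) =
                  fr (fun v => v ∉ F) := fr_congr fun v => by simp [hj']
              rw [h6, fr_notMem]
              have h7 : (F.card : ℝ) / Fintype.card V ≤ 1 / 2 := by
                rw [div_le_div_iff₀ hV (by norm_num)]
                have : ((2 * F.card : ℕ) : ℝ) ≤ (Fintype.card V : ℝ) := by exact_mod_cast h2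
                push_cast at this
                linarith
              linarith
      exact mul_le_mul h4 h5 (by positivity) (le_trans (by positivity) h4)
    · have h3 : fr (g F) = fr (fun r : Fin c → V => ∀ j, r j ∈ F) := by
        refine fr_congr fun r => ?_
        simp only [hg, h2, not_false_eq_true, false_imp_iff, true_and, true_imp_iff]
      rw [h3, ← fr_row_fst (c := c) (fun r => ∀ j, r j ∈ F), fr_row_all]
      have h4 : (1 / 2 : ℝ) ^ c ≤ ((F.card : ℝ) / Fintype.card V) ^ c := by
        refine pow_le_pow_left₀ (by norm_num) ?_ _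
        rw [div_le_div_iff₀ (by norm_num) hV]
        have : Fintype.card V ≤ F.card * 2 := by omega
        have h6 : (Fintype.card V : ℝ) ≤ F.card * 2 := by exact_mod_cast this
        linarith
      have h5 : (1 / (t : ℝ)) ^ k ≤ 1 := by
        refine pow_le_one₀ (by positivity) ?_
        rw [div_le_one (by linarith)]
        linarith
      calc (1 / (t : ℝ)) ^ k * (1 / 2) ^ c ≤ 1 * (1 / 2) ^ c :=
            mul_le_mul_of_nonneg_right h5 (by positivity)
        _ ≤ _ := by rw [one_mul]; exact h4
  refine le_trans (fr_mono (q := fun ω : ι → Row V c => ∃ F : Finset V,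
    f ≤ F.card ∧ ∀ i, ¬ g F (ω i).1) fun ω hω => ?_) ?_
  · push Not at hω
    obtain ⟨F, hF, hno⟩ := hω
    refine ⟨F, hF, fun i hi => ?_⟩
    obtain ⟨h1, h2⟩ := hgood F _ hi
    exact absurd h2 (not_lt.mpr (hno i h1))
  refine (fr_exists _).trans ?_
  have h2 : ∀ F : Finset V, fr (fun ω : ι → Row V c => f ≤ F.card ∧ ∀ i, ¬ g F (ω i).1) ≤
      Real.exp (-(Fintype.card ι * ((1 / (t : ℝ)) ^ k * (1 / 2) ^ c))) := by
    intro F
    by_cases hp : f ≤ F.card
    · have h3 : fr (fun ω : ι → Row V c => f ≤ F.card ∧ ∀ i, ¬ g F (ω i).1) =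
          (1 - fr (fun x : Row V c => g F x.1)) ^ Fintype.card ι := by
        rw [← fr_not, ← Finset.card_univ, ← Finset.prod_const, ← fr_pi]
        exact fr_congr fun ω => by simp [hp]
      rw [h3]
      refine (pow_le_exp_neg (fr_le_one _) _).trans ?_
      refine Real.exp_le_exp.mpr (neg_le_neg ?_)
      exact mul_le_mul_of_nonneg_left (hprob F hp) (Nat.cast_nonneg _)
    · rw [fr_false fun ω hω => hp hω.1]
      exact (Real.exp_pos _).le
  refine (Finset.sum_le_sum fun p _ => h2 p).trans ?_
  rw [Finset.sum_const, Finset.card_univ, Fintype.card_finset, nsmul_eq_mul]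
  push_cast
  exact le_rfl

/-- the image of the variables of a row -/
def push {c : ℕ} (r : Fin c → V) (π : V → V) (u : V) : ZMod 2 :=
  ∑ v, if π v = u then rowA r v else 0

lemma push_ne {c : ℕ} {r : Fin c → V} {π : V → V} {u : V} (h : push r π u ≠ 0) :
    ∃ k, π (r k) = u := by
  obtain ⟨v, -, hv⟩ := Finset.exists_ne_zero_of_sum_ne_zero h
  by_cases hvu : π v = u
  · rw [if_pos hvu] at hv
    obtain ⟨k, hk⟩ := rowA_ne hv
    exact ⟨k, by rw [hk]; exact hvu⟩
  · simp [hvu] at hv

/-- the image of a row is a given form with small probability -/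
lemma fr_hit [Nonempty V] {c : ℕ} (e f : ℕ) (P D : Finset V) (π : V → V)
    (hπ : ∀ u, (P.filter fun v => π v = u).card ≤ f) (g : V → ZMod 2)
    (hg : e ≤ (univ.filter fun v => g v ≠ 0 ∧ v ∉ D).card)
    (hgc : (univ.filter fun v => g v ≠ 0 ∧ v ∉ D).card ≤ c) :
    fr (fun x : Row V c => (∀ k, x.1 k ∈ P) ∧ ∀ u, u ∉ D → push x.1 π u = g u) ≤
      2 ^ c * ((c * f : ℝ) / Fintype.card V) ^ e := by
  classical
  have hV : (0 : ℝ) < Fintype.card V := by exact_mod_cast Fintype.card_pos
  set Tg : Finset V := univ.filter fun v => g v ≠ 0 ∧ v ∉ D with hTg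
  set Y : Finset V := P.filter fun v => π v ∈ Tg with hY
  have hYc : Y.card ≤ c * f := by
    have h1 : Y ⊆ Tg.biUnion fun u => P.filter fun v => π v = u := by
      intro v hv
      rw [hY, Finset.mem_filter] at hv
      refine Finset.mem_biUnion.mpr ⟨π v, hv.2, ?_⟩
      rw [Finset.mem_filter]
      exact ⟨hv.1, rfl⟩
    refine (Finset.card_le_card h1).trans (Finset.card_biUnion_le.trans
      ((Finset.sum_le_card_nsmul _ _ f fun u _ => hπ u).trans ?_))
    rw [smul_eq_mul]
    exact Nat.mul_le_mul_right _ hgc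
  refine le_trans (fr_mono (q := fun x : Row V c => ∃ S ∈ (univ : Finset (Fin c)).powersetCard e,
    ∀ k ∈ S, x.1 k ∈ Y) fun x hx => ?_) ?_
  · obtain ⟨hxP, hxu⟩ := hx
    have h1 : e ≤ (univ.filter fun k => x.1 k ∈ Y).card := by
      refine hg.trans ?_
      have h2 : Tg ⊆ (univ.filter fun k => x.1 k ∈ Y).image fun k => π (x.1 k) := by
        intro u hu
        have hu' := (Finset.mem_filter.mp hu).2
        obtain ⟨k, hk⟩ := push_ne (r := x.1) (π := π) (u := u) (by rw [hxu u hu'.2]; exact hu'.1)
        rw [Finset.mem_image]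
        refine ⟨k, ?_, hk⟩
        simp only [Finset.mem_filter, Finset.mem_univ, true_and, hY]
        refine ⟨hxP k, ?_⟩
        rw [hk]
        exact hu
      exact (Finset.card_le_card h2).trans Finset.card_image_le
    obtain ⟨S, hS, hSc⟩ := Finset.exists_subset_card_eq h1
    refine ⟨S, Finset.mem_powersetCard.mpr ⟨Finset.subset_univ _, hSc⟩, fun k hk => ?_⟩
    exact (Finset.mem_filter.mp (hS hk)).2
  · refine (fr_exists_finset _ _).trans ?_
    have h2 : ∀ S ∈ (univ : Finset (Fin c)).powersetCard e,
        fr (fun x : Row V c => ∀ k ∈ S, x.1 k ∈ Y) ≤ ((c * f : ℝ) / Fintype.card V) ^ e := by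
      intro S hS
      rw [fr_row_le, (Finset.mem_powersetCard.mp hS).2]
      refine pow_le_pow_left₀ (by positivity) ?_ _
      refine div_le_div_of_nonneg_right ?_ hV.le
      exact_mod_cast hYc
    refine (Finset.sum_le_sum h2).trans ?_
    rw [Finset.sum_const, nsmul_eq_mul, Finset.card_powersetCard, Finset.card_univ,
      Fintype.card_fin]
    refine mul_le_mul_of_nonneg_right ?_ (by positivity)
    exact_mod_cast Nat.choose_le_two_pow _ _

/-- failure of the fourth rigidity condition -/
lemma fr_fail4 [Nonempty V] [Fintype ι] {c : ℕ} (e f p0 : ℕ) (hp : Fintype.card V ≤ 32 * p0)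
    (hsmall : Fintype.card ι * (2 ^ c * ((c * f : ℝ) / Fintype.card V) ^ e) ≤ (1 / 32) ^ c / 2) :
    fr (fun ω : ι → Row V c => ¬ ∀ (P D : Finset V) (π : V → V), p0 ≤ P.card →
      (∀ v ∈ P, π v ∉ P ∧ π v ∉ D) → (∀ u, (P.filter fun v => π v = u).card < f) →
      ∃ i, vars (fun i => rowA (ω i).1) i ⊆ P ∧ ∀ j, ¬ vars (fun i => rowA (ω i).1) j ⊆ P →
        e ≤ (vars (fun i => rowA (ω i).1) j \ D).card →
        ∃ u, u ∉ D ∧ (∑ v, if π v = u then rowA (ω i).1 v else 0) ≠ rowA (ω j).1 u) ≤
      2 ^ Fintype.card V * 2 ^ Fintype.card V * (Fintype.card V : ℝ) ^ Fintype.card V *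
        Real.exp (-(Fintype.card ι * ((1 / 32) ^ c / 2))) := by
  classical
  have hV : (0 : ℝ) < Fintype.card V := by exact_mod_cast Fintype.card_pos
  set G : Finset V × Finset V × (V → V) → (ι → Option (Row V c)) → Row V c → Prop :=
    fun p σ x => ∃ j x', σ j = some x' ∧
      e ≤ (univ.filter fun v => rowA x'.1 v ≠ 0 ∧ v ∉ p.2.1).card ∧
      ∀ u, u ∉ p.2.1 → push x.1 p.2.2 u = rowA x'.1 u with hG
  set ok : Finset V × Finset V × (V → V) → Prop := fun p =>
    p0 ≤ p.1.card ∧ ∀ u, (p.1.filter fun v => p.2.2 v = u).card < f with hok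
  refine le_trans (fr_mono (q := fun ω : ι → Row V c => ∃ p : Finset V × Finset V × (V → V),
    ok p ∧ ∀ i, (∀ k, (ω i).1 k ∈ p.1) →
      G p (fun j => if (∀ k, (ω j).1 k ∈ p.1) then none else some (ω j)) (ω i)) fun ω hω => ?_) ?_
  · push Not at hω
    obtain ⟨P, D, π, hPc, hπ, hfib, hno⟩ := hω
    refine ⟨(P, D, π), ⟨hPc, hfib⟩, fun i hi => ?_⟩
    have hvars : ∀ j, (∀ k, (ω j).1 k ∈ P) → vars (fun i => rowA (ω i).1) j ⊆ P := by
      intro j hj v hv
      rw [mem_vars] at hv
      obtain ⟨k, hk⟩ := rowA_ne hv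
      rw [← hk]
      exact hj k
    obtain ⟨j, hj, hje, hju⟩ := hno i (hvars i hi)
    refine ⟨j, ω j, ?_, ?_, hju⟩
    · exact if_neg fun h => hj (hvars j h)
    · refine hje.trans (Finset.card_le_card ?_)
      intro v hv
      rw [Finset.mem_sdiff, mem_vars] at hv
      simp only [Finset.mem_filter, Finset.mem_univ, true_and]
      exact hv
  refine (fr_exists _).trans ?_
  have h2 : ∀ p : Finset V × Finset V × (V → V), fr (fun ω : ι → Row V c =>
      ok p ∧ ∀ i, (∀ k, (ω i).1 k ∈ p.1) →
      G p (fun j => if (∀ k, (ω j).1 k ∈ p.1) then none else some (ω j)) (ω i)) ≤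
      Real.exp (-(Fintype.card ι * ((1 / 32) ^ c / 2))) := by
    intro p
    by_cases hokp : ok p
    · have hpP : (1 / 32 : ℝ) ^ c ≤ fr (fun x : Row V c => ∀ k, x.1 k ∈ p.1) := by
        rw [fr_row_all]
        refine pow_le_pow_left₀ (by norm_num) ?_ _
        rw [div_le_div_iff₀ (by norm_num) hV]
        have : Fintype.card V ≤ p.1.card * 32 := by
          have := hokp.1
          omega
        have h6 : (Fintype.card V : ℝ) ≤ p.1.card * 32 := by exact_mod_cast this
        linarith
      have hGb : ∀ σ : ι → Option (Row V c), fr (fun x : Row V c =>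
          (∀ k, x.1 k ∈ p.1) ∧ G p σ x) ≤ fr (fun x : Row V c => ∀ k, x.1 k ∈ p.1) / 2 := by
        intro σ
        refine le_trans (fr_mono (q := fun x : Row V c => ∃ j, ∃ x', σ j = some x' ∧
          (e ≤ (univ.filter fun v => rowA x'.1 v ≠ 0 ∧ v ∉ p.2.1).card ∧
          ((∀ k, x.1 k ∈ p.1) ∧ ∀ u, u ∉ p.2.1 → push x.1 p.2.2 u = rowA x'.1 u)))
          fun x hx => ?_) ?_
        · obtain ⟨h1, j, x', h3, h4, h5⟩ := hx
          exact ⟨j, x', h3, h4, h1, h5⟩
        · refine (fr_exists _).trans ?_
          have h3 : ∀ j, fr (fun x : Row V c => ∃ x', σ j = some x' ∧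
              (e ≤ (univ.filter fun v => rowA x'.1 v ≠ 0 ∧ v ∉ p.2.1).card ∧
              ((∀ k, x.1 k ∈ p.1) ∧ ∀ u, u ∉ p.2.1 → push x.1 p.2.2 u = rowA x'.1 u))) ≤
              2 ^ c * ((c * f : ℝ) / Fintype.card V) ^ e := by
            intro j
            cases hσ : σ j with
            | none =>
              rw [fr_false]
              · positivity
              · rintro x ⟨x', hx', -⟩
                exact absurd hx' (by simp)
            | some x' =>
              by_cases he : e ≤ (univ.filter fun v => rowA x'.1 v ≠ 0 ∧ v ∉ p.2.1).card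
              · refine le_trans (fr_mono fun x hx => ?_) (fr_hit e f p.1 p.2.1 p.2.2
                  (fun u => (hokp.2 u).le) (rowA x'.1) he ?_)
                · obtain ⟨x'', hx'', -, h4⟩ := hx
                  have : x'' = x' := (Option.some.inj hx'').symm
                  rw [this] at h4
                  exact h4
                · refine (Finset.card_le_card ?_).trans
                    (vars_rowA_card (fun _ : ι => x'.1) j)
                  intro v hv
                  rw [mem_vars]
                  exact (Finset.mem_filter.mp hv).2.1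
              · rw [fr_false]
                · positivity
                · rintro x ⟨x'', hx'', h4, -⟩
                  have : x'' = x' := (Option.some.inj hx'').symm
                  rw [this] at h4
                  exact he h4
          refine (Finset.sum_le_sum fun j _ => h3 j).trans ?_
          rw [Finset.sum_const, Finset.card_univ, nsmul_eq_mul]
          refine hsmall.trans ?_
          linarith
      have h3 : fr (fun ω : ι → Row V c => ok p ∧ ∀ i, (∀ k, (ω i).1 k ∈ p.1) →
          G p (fun j => if (∀ k, (ω j).1 k ∈ p.1) then none else some (ω j)) (ω i)) ≤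
          (1 - fr (fun x : Row V c => ∀ k, x.1 k ∈ p.1) / 2) ^ Fintype.card ι := by
        refine le_trans (fr_mono fun ω hω => ?_)
          (fr_mask (fun x : Row V c => ∀ k, x.1 k ∈ p.1) (G p) hGb)
        intro i hi
        have h4 := hω.2 i hi
        convert h4 using 3
      refine h3.trans ?_
      have h4 : fr (fun x : Row V c => ∀ k, x.1 k ∈ p.1) ≤ 1 := fr_le_one _
      refine (pow_le_exp_neg (by linarith) _).trans ?_
      refine Real.exp_le_exp.mpr (neg_le_neg ?_)
      refine mul_le_mul_of_nonneg_left ?_ (Nat.cast_nonneg _)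
      linarith
    · rw [fr_false fun ω hω => hokp hω.1]
      exact (Real.exp_pos _).le
  refine (Finset.sum_le_sum fun p _ => h2 p).trans ?_
  rw [Finset.sum_const, Finset.card_univ, Fintype.card_prod, Fintype.card_prod,
    Fintype.card_finset, Fintype.card_fun, nsmul_eq_mul]
  push_cast
  refine le_of_eq ?_
  ring

lemma nat_aux {c d j N S : ℕ} (hd : d ≤ c) (h3 : 2 * N ≤ c * j + S) (hs : S < (c - 2 * d) * j) :
    N ≤ (c - d) * j := by
  obtain ⟨c', hc'⟩ := Nat.exists_eq_add_of_le hd
  subst hc'
  rw [Nat.add_sub_cancel_left]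
  have h4 : (d + c') * j = d * j + c' * j := by ring
  by_cases hdc : d ≤ c'
  · obtain ⟨c'', hc''⟩ := Nat.exists_eq_add_of_le hdc
    have h5 : d + c' - 2 * d = c'' := by omega
    rw [h5] at hs
    have h6 : c' * j = d * j + c'' * j := by rw [hc'']; ring
    omega
  · have h5 : d + c' - 2 * d = 0 := by omega
    rw [h5] at hs
    omega

/-- failure of the expansion -/
lemma fr_fail5 [Nonempty V] [Fintype ι] {c d : ℕ} (hd : d ≤ c) (K : ℕ)
    (hK : c * (2 * K) ≤ Fintype.card V)
    (h : Fintype.card ι * (3 ^ c * ((c * (2 * K) : ℝ) / Fintype.card V) ^ d) ≤ 1) :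
    fr (fun ω : ι → Row V c => ¬ ∀ J : Finset ι, J.card ≤ 2 * K →
      (c - 2 * d) * J.card ≤ (supp (fun i => rowA (ω i).1) J).card) ≤
      2 * (Fintype.card ι * (3 ^ c * ((c * (2 * K) : ℝ) / Fintype.card V) ^ d)) := by
  classical
  have hV : (0 : ℝ) < Fintype.card V := by exact_mod_cast Fintype.card_pos
  have hy0 : 0 ≤ (3 : ℝ) ^ c * ((c * (2 * K) : ℝ) / Fintype.card V) ^ d := by positivity
  refine le_trans ?_ (sum_pow_card hy0 h)
  refine le_trans ?_ ((fr_exists_finset (univ.filter fun J : Finset ι => J.Nonempty)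
    (fun (J : Finset ι) (ω : ι → Row V c) => J.card ≤ 2 * K ∧
      (nb (fun i => (ω i).1) J).card ≤ (c - d) * J.card)).trans ?_)
  · refine fr_mono fun ω hω => ?_
    push Not at hω
    obtain ⟨J, hJ, hs⟩ := hω
    refine ⟨J, ?_, hJ, ?_⟩
    · simp only [Finset.mem_filter, Finset.mem_univ, true_and]
      refine Finset.card_pos.mp ?_
      rcases Nat.eq_zero_or_pos J.card with h0 | h0
      · rw [h0] at hs
        simp at hs
      · exact h0
    · exact nat_aux hd (two_card_nb (fun i => (ω i).1) J) hs
  · refine Finset.sum_le_sum fun J hJ => ?_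
    have hJ1 : 0 < J.card := by
      simp only [Finset.mem_filter, Finset.mem_univ, true_and] at hJ
      exact hJ.card_pos
    by_cases hc : J.card ≤ 2 * K
    · have hD : (c - d) * J.card ≤ Fintype.card V := by
        refine le_trans ?_ hK
        exact Nat.mul_le_mul (Nat.sub_le _ _) hc
      refine (fr_mono fun ω hω => hω.2).trans ?_
      -- the union bound with the factorial
      have h1 : fr (fun ω : ι → Row V c => (nb (fun i => (ω i).1) J).card ≤ (c - d) * J.card) ≤
          (Fintype.card V).choose ((c - d) * J.card) *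
            (((((c - d) * J.card : ℕ) : ℝ) / Fintype.card V) ^ c) ^ J.card := by
        refine le_trans (fr_mono (q := fun ω : ι → Row V c =>
          ∃ X ∈ (univ : Finset V).powersetCard ((c - d) * J.card),
            ∀ i ∈ J, ∀ k, (ω i).1 k ∈ X) fun ω hω => ?_) ?_
        · obtain ⟨X, hX, -, hXd⟩ := Finset.exists_subsuperset_card_eq
            (Finset.subset_univ (nb (fun i => (ω i).1) J)) hω (by simpa using hD)
          refine ⟨X, ?_, fun i hi k => hX ?_⟩
          · rw [Finset.mem_powersetCard]
            exact ⟨Finset.subset_univ _, hXd⟩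
          · simp only [nb, Finset.mem_biUnion, Finset.mem_image, Finset.mem_univ, true_and]
            exact ⟨i, hi, k, rfl⟩
        · refine (fr_exists_finset _ _).trans ?_
          refine (Finset.sum_le_sum (g := fun _ =>
            (((((c - d) * J.card : ℕ) : ℝ) / Fintype.card V) ^ c) ^ J.card) ?_).trans ?_
          · intro X hX
            rw [fr_inside, (Finset.mem_powersetCard.mp hX).2]
          · rw [Finset.sum_const, nsmul_eq_mul, Finset.card_powersetCard, Finset.card_univ]
      refine h1.trans ?_
      by_cases hD0 : (c - d) * J.card = 0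
      · rw [hD0]
        have hcd : c - d = 0 := by
          rcases Nat.mul_eq_zero.mp hD0 with h | h
          · exact h
          · omega
        have hcd' : c = d := by omega
        simp only [Nat.choose_zero_right, Nat.cast_one, Nat.cast_zero, zero_div, one_mul]
        refine pow_le_pow_left₀ (by positivity) ?_ _
        rcases Nat.eq_zero_or_pos c with h0 | h0
        · rw [← hcd', h0]
          simp
        · rw [zero_pow (by omega)]
          exact hy0
      · have hDpos : (0 : ℝ) < (((c - d) * J.card : ℕ) : ℝ) := by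
          exact_mod_cast Nat.pos_of_ne_zero hD0
        have h3 : ((Fintype.card V).choose ((c - d) * J.card) : ℝ) ≤
            (Fintype.card V / (((c - d) * J.card : ℕ) : ℝ)) ^ ((c - d) * J.card) *
              3 ^ ((c - d) * J.card) := by
          have h4 := Nat.choose_le_pow_div (α := ℝ) ((c - d) * J.card) (Fintype.card V)
          have h5 := Real.pow_div_factorial_le_exp ((((c - d) * J.card : ℕ) : ℝ)) hDpos.le
            ((c - d) * J.card)
          have h6 : Real.exp ((((c - d) * J.card : ℕ) : ℝ)) ≤ 3 ^ ((c - d) * J.card) := by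
            have := Real.exp_one_lt_three
            calc Real.exp ((((c - d) * J.card : ℕ) : ℝ)) = (Real.exp 1) ^ ((c - d) * J.card) := by
                  rw [← Real.exp_nat_mul, mul_one]
              _ ≤ _ := pow_le_pow_left₀ (Real.exp_pos _).le this.le _
          refine h4.trans ?_
          have h7 : (Fintype.card V : ℝ) ^ ((c - d) * J.card) /
              (((c - d) * J.card).factorial : ℝ) =
              (Fintype.card V / (((c - d) * J.card : ℕ) : ℝ)) ^ ((c - d) * J.card) *
              ((((c - d) * J.card : ℕ) : ℝ) ^ ((c - d) * J.card) /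
                (((c - d) * J.card).factorial : ℝ)) := by
            rw [div_pow]
            field_simp
          rw [h7]
          exact mul_le_mul_of_nonneg_left (h5.trans h6) (by positivity)
        refine (mul_le_mul_of_nonneg_right h3 (by positivity)).trans ?_
        rw [pow_mul, pow_mul, ← mul_pow, ← mul_pow]
        refine pow_le_pow_left₀ (by positivity) ?_ _
        generalize hDD : (((c - d) * J.card : ℕ) : ℝ) = DD at hDpos
        have h8 : (Fintype.card V / DD) ^ (c - d) * 3 ^ (c - d) * (DD / Fintype.card V) ^ c =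
            3 ^ (c - d) * (DD / Fintype.card V) ^ d := by
          have h9 : (DD / (Fintype.card V : ℝ)) ^ c =
              (DD / Fintype.card V) ^ (c - d) * (DD / Fintype.card V) ^ d := by
            rw [← pow_add]
            congr 1
            omega
          rw [h9]
          have h10 : (Fintype.card V / DD) ^ (c - d) * (DD / (Fintype.card V : ℝ)) ^ (c - d) =
              1 := by
            rw [← mul_pow]
            have : (Fintype.card V : ℝ) / DD * (DD / Fintype.card V) = 1 := by
              field_simp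
            rw [this, one_pow]
          calc (Fintype.card V / DD) ^ (c - d) * 3 ^ (c - d) *
                ((DD / (Fintype.card V : ℝ)) ^ (c - d) * (DD / Fintype.card V) ^ d) =
                ((Fintype.card V / DD) ^ (c - d) * (DD / (Fintype.card V : ℝ)) ^ (c - d)) *
                (3 ^ (c - d) * (DD / Fintype.card V) ^ d) := by ring
            _ = _ := by rw [h10, one_mul]
        rw [h8]
        refine mul_le_mul (pow_le_pow_right₀ (by norm_num) (Nat.sub_le _ _)) ?_ (by positivity)
          (by positivity)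
        refine pow_le_pow_left₀ (by positivity) ?_ _
        refine div_le_div_of_nonneg_right ?_ hV.le
        rw [← hDD]
        have h11 : (c - d) * J.card ≤ c * (2 * K) := Nat.mul_le_mul (Nat.sub_le _ _) hc
        exact_mod_cast h11
    · have : fr (fun ω : ι → Row V c => J.card ≤ 2 * K ∧
          (nb (fun i => (ω i).1) J).card ≤ (c - d) * J.card) = 0 := by
        unfold fr
        simp [hc]
      rw [this]
      exact pow_nonneg hy0 _

end Pool.Agent.J4H24.SR
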