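import Pool.Agent.J4H24.SR.Rand

/-!
# Random restrictions of expanding systems
-/

namespace Pool.Agent.J4H24.SR

open Finset Pool.Agent.J4H24 Pool.Agent.J4H24.PR

set_option linter.unusedSectionVars false

variable {V ι : Type*} [Fintype V] [DecidableEq V] [DecidableEq ι]

lemma supp_card_le {A : ι → V → ZMod 2} {c : ℕ} (hA : ∀ i, (vars A i).card ≤ c) (J : Finset ι) :
    (supp A J).card ≤ c * J.card := by
  have h1 : supp A J ⊆ nbA A J := by
    intro v hv
    simp only [supp, Finset.mem_filter, Finset.mem_univ, true_and] at hv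
    exact AJ_ne_mem hv
  refine (Finset.card_le_card h1).trans (Finset.card_biUnion_le.trans
    ((Finset.sum_le_card_nsmul _ _ c fun i _ => hA i).trans ?_))
  rw [smul_eq_mul, mul_comm]

/-- a random restriction does not hit the supports too often -/
lemma res_fail {t : ℕ} [NeZero t] [Fintype ι] {A : ι → V → ZMod 2} {K c d : ℕ} (hd : 0 < d)
    (hA : ∀ i, (vars A i).card ≤ c)
    (h : Fintype.card ι * (2 ^ c * (1 / (t : ℝ)) ^ d) ≤ 1) :
    fr (fun ρ : V → Fin t × Bool => ¬ ∀ J : Finset ι, J.card ≤ 2 * K →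
      (supp A J ∩ dom ρ).card ≤ d * J.card) ≤
      2 * (Fintype.card ι * (2 ^ c * (1 / (t : ℝ)) ^ d)) := by
  classical
  refine le_trans ?_ (sum_pow_card (by positivity) h)
  refine le_trans ?_ ((fr_exists_finset (univ.filter fun J : Finset ι => J.Nonempty)
    (fun (J : Finset ι) (ρ : V → Fin t × Bool) =>
    ∃ X ∈ (supp A J).powersetCard (d * J.card), ∀ v ∈ X, (ρ v).1 = 0)).trans ?_)
  · refine fr_mono fun ρ hρ => ?_
    push Not at hρ
    obtain ⟨J, hJ, hs⟩ := hρ
    obtain ⟨X, hX, hXc⟩ := Finset.exists_subset_card_eq hs.le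
    refine ⟨J, ?_, X, ?_, ?_⟩
    · simp only [Finset.mem_filter, Finset.mem_univ, true_and]
      refine Finset.card_pos.mp ?_
      rcases Nat.eq_zero_or_pos J.card with h0 | h0
      · exfalso
        have h1 := supp_card_le hA J
        have h2 : (supp A J ∩ dom ρ).card ≤ (supp A J).card :=
          Finset.card_le_card Finset.inter_subset_left
        rw [h0] at h1 hs
        omega
      · exact h0
    · rw [Finset.mem_powersetCard]
      exact ⟨hX.trans Finset.inter_subset_left, hXc⟩
    · intro v hv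
      exact mem_dom.mp (Finset.mem_inter.mp (hX hv)).2
  · refine Finset.sum_le_sum fun J hJ => ?_
    refine (fr_exists_finset _ _).trans ?_
    have h2 : ∀ X ∈ (supp A J).powersetCard (d * J.card),
        fr (fun ρ : V → Fin t × Bool => ∀ v ∈ X, (ρ v).1 = 0) ≤
          ((1 / (t : ℝ)) ^ d) ^ J.card := by
      intro X hX
      rw [fr_sub_dom, ← pow_mul, (Finset.mem_powersetCard.mp hX).2]
    refine (Finset.sum_le_sum h2).trans ?_
    rw [Finset.sum_const, nsmul_eq_mul, Finset.card_powersetCard, mul_pow]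
    refine mul_le_mul_of_nonneg_right ?_ (by positivity)
    rw [← pow_mul]
    have h3 : (supp A J).card.choose (d * J.card) ≤ 2 ^ (c * J.card) :=
      (Nat.choose_le_two_pow _ _).trans (Nat.pow_le_pow_right (by norm_num) (supp_card_le hA J))
    exact_mod_cast h3

/-- there is a restriction which keeps the expansion and satisfies the wide clauses of a short
list -/
theorem exists_res {t : ℕ} [NeZero t] [Fintype ι] {A : ι → V → ZMod 2} {K w c d : ℕ}
    (hd : 0 < d) (hcd : 3 * d < c) (hA : ∀ i, (vars A i).card ≤ c)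
    (hexp : ∀ J : Finset ι, J.card ≤ 2 * K → (c - 2 * d) * J.card ≤ (supp A J).card)
    (h : 4 * (Fintype.card ι * (2 ^ c * (1 / (t : ℝ)) ^ d)) ≤ 1)
    (L : List (Finset (V × Bool))) (hL : L.length * Real.exp (-(w / (2 * t))) < 1 / 2) :
    ∃ (D0 : Finset V) (x0 : V → Bool), Exp A K (c - 3 * d) D0 ∧ P1 A K K D0 ∧
      (∀ J : Finset ι, J.card ≤ K → (∀ v, AJ A J v ≠ 0 → v ∈ D0) → J = ∅) ∧
      ∀ C ∈ L, NS w D0 x0 C := by
  classical
  have hpos : 0 ≤ Fintype.card ι * ((2 : ℝ) ^ c * (1 / (t : ℝ)) ^ d) := by positivity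
  have f1 := res_fail (t := t) (K := K) hd hA (by linarith)
  have f3 : fr (fun ρ : V → Fin t × Bool => ∃ C ∈ L.toFinset,
      ¬ NS w (dom ρ) (fun v => (ρ v).2) C) ≤ L.length * Real.exp (-(w / (2 * t))) := by
    refine (fr_exists_finset _ _).trans ?_
    have : ∀ C ∈ L.toFinset, fr (fun ρ : V → Fin t × Bool =>
        ¬ NS w (dom ρ) (fun v => (ρ v).2) C) ≤ Real.exp (-(w / (2 * t))) := by
      intro C _
      by_cases hC : w < (C.image Prod.fst).card
      · exact res_wide hC
      · have : fr (fun ρ : V → Fin t × Bool => ¬ NS w (dom ρ) (fun v => (ρ v).2) C) = 0 := by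
          refine fr_false fun ρ hρ => hρ (Or.inl (by omega))
        rw [this]
        exact (Real.exp_pos _).le
    refine (Finset.sum_le_sum this).trans ?_
    rw [Finset.sum_const, nsmul_eq_mul]
    refine mul_le_mul_of_nonneg_right ?_ (Real.exp_pos _).le
    exact_mod_cast L.toFinset_card_le
  have f : fr (fun ρ : V → Fin t × Bool => (¬ ∀ J : Finset ι, J.card ≤ 2 * K →
      (supp A J ∩ dom ρ).card ≤ d * J.card) ∨
      ∃ C ∈ L.toFinset, ¬ NS w (dom ρ) (fun v => (ρ v).2) C) < 1 := by
    refine (fr_or _ _).trans_lt ?_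
    linarith
  obtain ⟨ρ, hρ⟩ := exists_not_of_fr_lt f
  push Not at hρ
  obtain ⟨g1, g3⟩ := hρ
  have key : ∀ J : Finset ι, J.card ≤ 2 * K →
      (c - 3 * d) * J.card ≤ (univ.filter fun v => AJ A J v ≠ 0 ∧ v ∉ dom ρ).card := by
    intro J hJ
    have h1 := hexp J hJ
    have h2 := g1 J hJ
    have h3 : supp A J ⊆ (supp A J ∩ dom ρ) ∪ univ.filter fun v => AJ A J v ≠ 0 ∧ v ∉ dom ρ := by
      intro v hv
      simp only [supp, Finset.mem_filter, Finset.mem_univ, true_and, Finset.mem_union,
        Finset.mem_inter] at hv ⊢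
      tauto
    have h4 := (Finset.card_le_card h3).trans (Finset.card_union_le _ _)
    obtain ⟨r, hr⟩ := Nat.exists_eq_add_of_lt hcd
    have h5 : (c - 2 * d) * J.card = (c - 3 * d) * J.card + d * J.card := by
      rw [← Nat.add_mul]
      congr 1
      omega
    omega
  refine ⟨dom ρ, fun v => (ρ v).2, ?_, ?_, ?_, fun C hC => g3 C (List.mem_toFinset.mpr hC)⟩
  · intro J hJ
    refine (key J hJ).trans (Finset.card_le_card ?_)
    intro v hv
    simp only [Finset.mem_filter, Finset.mem_univ, true_and] at hv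
    rw [Finset.mem_sdiff]
    exact ⟨AJ_ne_mem hv.1, hv.2⟩
  · intro J hJ hs
    refine le_trans ?_ ((key J hJ).trans hs)
    exact Nat.le_mul_of_pos_left _ (by omega)
  · intro J hJ hs
    have h1 := key J (by omega)
    have h2 : (univ.filter fun v => AJ A J v ≠ 0 ∧ v ∉ dom ρ) = ∅ := by
      refine Finset.filter_eq_empty_iff.mpr fun v _ hv => hv.2 (hs v hv.1)
    rw [h2, Finset.card_empty] at h1
    have h3 : 1 ≤ c - 3 * d := by omega
    have h4 := Nat.le_mul_of_pos_left J.card (show 0 < c - 3 * d by omega)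
    exact Finset.card_eq_zero.mp (by omega)

end Pool.Agent.J4H24.SR
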