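import Pool.Agent.J4H24.SR.Force
import Pool.Agent.J4H24.SR.Half

/-!
# Substitution redundancy does not help for rigid expanding systems
-/

namespace Pool.Agent.J4H24.SR

open Finset Pool.Agent.J4H24.PR

set_option linter.unusedSectionVars false

variable {V ι : Type*} [Fintype V] [DecidableEq V] [DecidableEq ι]
  {A : ι → V → ZMod 2} {b : ι → ZMod 2} {K s w : ℕ} {D0 : Finset V}

/-- the rigidity properties of the system -/
structure Rig (A : ι → V → ZMod 2) (b : ι → ZMod 2) (c e q q2 p0 f : ℕ) : Prop where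
  card : ∀ i, (vars A i).card ≤ c
  odd : ∀ i, ∑ v, A i v = 1
  h1 : H1 A q
  h2 : ∀ Q : Finset V, q2 ≤ Q.card → ∀ y : V → Bool, ∃ i, vars A i ⊆ Q ∧ val A i y ≠ b i
  h3 : ∀ F : Finset V, f ≤ F.card → ∃ i, ∑ v ∈ F, A i v = 1 ∧ (vars A i \ F).card + 1 < e
  h4 : ∀ (P D : Finset V) (π : V → V), p0 ≤ P.card → (∀ v ∈ P, π v ∉ P ∧ π v ∉ D) →
    (∀ u, (P.filter fun v => π v = u).card < f) →
    ∃ i, vars A i ⊆ P ∧ ∀ j, ¬ vars A j ⊆ P → e ≤ (vars A j \ D).card →
      ∃ u, u ∉ D ∧ (∑ v, if π v = u then A i v else 0) ≠ A j u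

/-- the value of a variable after a substitution -/
def ev (τ : V → Bool ⊕ (V × Bool)) (y : V → Bool) (v : V) : Bool :=
  match τ v with
  | Sum.inl e => e
  | Sum.inr m => y m.1 == m.2

/-- the linear part of a substitution -/
def pc (τ : V → Bool ⊕ (V × Bool)) (v u : V) : ZMod 2 :=
  match τ v with
  | Sum.inl _ => 0
  | Sum.inr m => if m.1 = u then 1 else 0

/-- the constant part of a substitution -/
def kc (τ : V → Bool ⊕ (V × Bool)) (v : V) : ZMod 2 :=
  match τ v with
  | Sum.inl e => bz e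
  | Sum.inr m => bz (!m.2)

/-- the target of a variable -/
def tgs (τ : V → Bool ⊕ (V × Bool)) (v : V) : Finset V :=
  match τ v with
  | Sum.inl _ => ∅
  | Sum.inr m => {m.1}

lemma bz_beq (a d : Bool) : bz (a == d) = bz a + bz (!d) := by
  cases a <;> cases d <;> decide

lemma bz_ev (τ : V → Bool ⊕ (V × Bool)) (y : V → Bool) (v : V) :
    bz (ev τ y v) = lf (pc τ v) y + kc τ v := by
  unfold ev lf pc kc
  cases h : τ v with
  | inl e => simp
  | inr m =>
    simp only [ite_mul, one_mul, zero_mul, Finset.sum_ite_eq, Finset.mem_univ, if_true]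
    exact bz_beq _ _

lemma pc_ne {τ : V → Bool ⊕ (V × Bool)} {v u : V} (h : pc τ v u ≠ 0) : tgs τ v = {u} := by
  unfold pc at h
  unfold tgs
  cases h' : τ v with
  | inl e => rw [h'] at h; simp at h
  | inr m =>
    rw [h'] at h
    simp only at h ⊢
    by_cases hm : m.1 = u
    · rw [hm]
    · simp [hm] at h

lemma pc_eq_one {τ : V → Bool ⊕ (V × Bool)} {v u : V} (h : tgs τ v = {u}) : pc τ v u = 1 := by
  unfold pc
  unfold tgs at h
  cases h' : τ v with
  | inl e =>
    rw [h'] at h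
    simp only at h
    exact absurd h.symm (Finset.singleton_ne_empty u)
  | inr m =>
    rw [h'] at h
    simp only at h ⊢
    rw [Finset.singleton_inj.mp h]
    simp

lemma tgs_card (τ : V → Bool ⊕ (V × Bool)) (v : V) : (tgs τ v).card ≤ 1 := by
  unfold tgs
  cases τ v <;> simp

lemma ev_congr {τ : V → Bool ⊕ (V × Bool)} {x y : V → Bool} {v : V}
    (h : ∀ u ∈ tgs τ v, x u = y u) : ev τ x v = ev τ y v := by
  unfold ev
  unfold tgs at h
  cases h' : τ v with
  | inl e => rfl
  | inr m =>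
    rw [h'] at h
    simp only [Finset.mem_singleton, forall_eq] at h
    simp only
    rw [h]

/-- the linear part of a substituted equation -/
def sf (A : ι → V → ZMod 2) (τ : V → Bool ⊕ (V × Bool)) (i : ι) (u : V) : ZMod 2 :=
  ∑ v, A i v * pc τ v u

lemma val_ev (τ : V → Bool ⊕ (V × Bool)) (y : V → Bool) (i : ι) :
    val A i (ev τ y) = lf (sf A τ i) y + ∑ v, A i v * kc τ v := by
  unfold PR.val
  have h1 : ∀ v, A i v * bz (ev τ y v) = A i v * lf (pc τ v) y + A i v * kc τ v := by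
    intro v
    rw [bz_ev, mul_add]
  rw [Finset.sum_congr rfl fun v _ => h1 v, Finset.sum_add_distrib]
  congr 1
  unfold lf sf
  simp_rw [Finset.mul_sum, Finset.sum_mul]
  rw [Finset.sum_comm]
  refine Finset.sum_congr rfl fun v _ => Finset.sum_congr rfl fun u _ => by ring

/-- the targets of the variables of an equation -/
def tgv (A : ι → V → ZMod 2) (τ : V → Bool ⊕ (V × Bool)) (i : ι) : Finset V :=
  (vars A i).biUnion (tgs τ)

lemma tgv_card {c : ℕ} (hc : ∀ i, (vars A i).card ≤ c) (τ : V → Bool ⊕ (V × Bool)) (i : ι) :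
    (tgv A τ i).card ≤ c := by
  refine (Finset.card_biUnion_le.trans (Finset.sum_le_card_nsmul _ _ 1 fun v _ => tgs_card τ v)).trans ?_
  simpa using hc i

lemma sf_ne {τ : V → Bool ⊕ (V × Bool)} {i : ι} {u : V} (h : sf A τ i u ≠ 0) :
    ∃ v ∈ vars A i, tgs τ v = {u} := by
  obtain ⟨v, -, hv⟩ := Finset.exists_ne_zero_of_sum_ne_zero h
  exact ⟨v, mem_vars.mpr (left_ne_zero_of_mul hv), pc_ne (right_ne_zero_of_mul hv)⟩

lemma sf_mem {τ : V → Bool ⊕ (V × Bool)} {i : ι} {u : V} (h : sf A τ i u ≠ 0) :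
    u ∈ tgv A τ i := by
  obtain ⟨v, hv, hu⟩ := sf_ne h
  exact Finset.mem_biUnion.mpr ⟨v, hv, by rw [hu]; exact Finset.mem_singleton_self u⟩

/-- Few variables outside the closed set, and no single equation: no sum of equations. -/
lemma free_of {c e1 : ℕ} (hc : ∀ i, (vars A i).card ≤ c) (hce : 3 * c < 4 * e1 + 2)
    {D1 : Finset V} {Js : Finset ι} (hJs : nbA A Js ⊆ D1)
    (hcl : ∀ J : Finset ι, J.card ≤ K → Disjoint J Js → J.Nonempty →
      e1 * J.card + 1 ≤ (nbA A J \ D1).card) {g : V → ZMod 2} (hne : ∃ v, v ∉ D1 ∧ g v ≠ 0)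
    (hw : (univ.filter fun v => g v ≠ 0 ∧ v ∉ D1).card ≤ c)
    (hj : ∀ j, j ∉ Js → ∃ v, v ∉ D1 ∧ A j v ≠ g v) (J : Finset ι) (hJ : J.card ≤ K) :
    ∃ v, v ∉ D1 ∧ AJ A J v ≠ g v := by
  by_contra hcon
  push Not at hcon
  have hJ' : ∀ v, v ∉ D1 → AJ A (J \ Js) v = g v := by
    intro v hv
    rw [← hcon v hv]
    unfold AJ
    have h1 := Finset.sum_inter_add_sum_sdiff J Js (fun j => A j v)
    have h2 : ∑ j ∈ J ∩ Js, A j v = 0 := by
      refine Finset.sum_eq_zero fun j hj => ?_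
      by_contra hne
      apply hv
      apply hJs
      exact Finset.mem_biUnion.mpr ⟨j, (Finset.mem_inter.mp hj).2, mem_vars.mpr hne⟩
    rw [h2, zero_add] at h1
    exact h1
  obtain ⟨v0, hv0, hgv0⟩ := hne
  have hcard : (J \ Js).card ≤ K := (Finset.card_le_card Finset.sdiff_subset).trans hJ
  rcases Nat.lt_or_ge 1 (J \ Js).card with h2 | h1
  · -- at least two equations
    have h3 := hcl (J \ Js) hcard Finset.sdiff_disjoint (Finset.card_pos.mp (by omega))
    have h4 := two_card_nbA hc (J \ Js) D1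
    have h5 : (univ.filter fun v => AJ A (J \ Js) v ≠ 0 ∧ v ∉ D1) =
        univ.filter fun v => g v ≠ 0 ∧ v ∉ D1 := by
      refine Finset.filter_congr fun v _ => ?_
      by_cases hv : v ∈ D1
      · simp [hv]
      · rw [hJ' v hv]
    rw [h5] at h4
    generalize (J \ Js).card = n at h2 h3 h4
    have h6 : 2 * (e1 * n + 1) ≤ c * n + c := by omega
    have h7 : c ≤ 2 * e1 := by omega
    obtain ⟨r, hr⟩ := Nat.exists_eq_add_of_le h7
    obtain ⟨n', hn'⟩ := Nat.exists_eq_add_of_le (show 2 ≤ n by omega)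
    have h8 : 2 * (e1 * n + 1) = c * n + r * n + 2 := by
      calc 2 * (e1 * n + 1) = (2 * e1) * n + 2 := by ring
        _ = c * n + r * n + 2 := by rw [hr]; ring
    have h9 : r * n = 2 * r + r * n' := by rw [hn']; ring
    have h10 : 0 ≤ r * n' := Nat.zero_le _
    omega
  · rcases Nat.eq_zero_or_pos (J \ Js).card with h0 | hp
    · rw [Finset.card_eq_zero] at h0
      have := hJ' v0 hv0
      rw [h0] at this
      apply hgv0
      rw [← this]
      simp [AJ]
    · obtain ⟨j, hj1⟩ := Finset.card_eq_one.mp (show (J \ Js).card = 1 by omega)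
      have hjJs : j ∉ Js := by
        have : j ∈ J \ Js := by rw [hj1]; exact Finset.mem_singleton_self j
        exact (Finset.mem_sdiff.mp this).2
      obtain ⟨v, hv, hne⟩ := hj j hjJs
      apply hne
      have := hJ' v hv
      rw [hj1] at this
      rw [← this]
      simp [AJ]

/-- Forms with very few variables outside the closed set. -/
lemma free_small {c e1 : ℕ} (hc : ∀ i, (vars A i).card ≤ c) (hce : 3 * c < 4 * e1 + 2)
    (hec : e1 ≤ c) (hK : 1 ≤ K)
    {D1 : Finset V} {Js : Finset ι} (hJs : nbA A Js ⊆ D1)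
    (hcl : ∀ J : Finset ι, J.card ≤ K → Disjoint J Js → J.Nonempty →
      e1 * J.card + 1 ≤ (nbA A J \ D1).card) {g : V → ZMod 2} (hne : ∃ v, v ∉ D1 ∧ g v ≠ 0)
    (hw : (univ.filter fun v => g v ≠ 0 ∧ v ∉ D1).card < e1 + 1) (J : Finset ι)
    (hJ : J.card ≤ K) : ∃ v, v ∉ D1 ∧ AJ A J v ≠ g v := by
  refine free_of hc hce hJs hcl hne (by omega) (fun j hj => ?_) J hJ
  by_contra hcon
  push Not at hcon
  have h1 := hcl {j} (by simpa using hK) (by simpa using hj) (Finset.singleton_nonempty j)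
  have h2 : (nbA A {j} \ D1) ⊆ univ.filter fun v => g v ≠ 0 ∧ v ∉ D1 := by
    intro v hv
    simp only [nbA, Finset.singleton_biUnion, Finset.mem_sdiff] at hv
    simp only [Finset.mem_filter, Finset.mem_univ, true_and]
    refine ⟨?_, hv.2⟩
    rw [← hcon v hv.2]
    exact mem_vars.mp hv.1
  have h3 := Finset.card_le_card h2
  rw [Finset.card_singleton] at h1
  omega

end Pool.Agent.J4H24.SR
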