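import Pool.Agent.J4H24.SR.Step

/-!
# Substitution redundancy does not help for rigid expanding systems (continued)
-/

namespace Pool.Agent.J4H24.SR

open Finset Pool.Agent.J4H24.PR

set_option linter.unusedSectionVars false

variable {V ι : Type*} [Fintype V] [DecidableEq V] [DecidableEq ι]
  {A : ι → V → ZMod 2} {b : ι → ZMod 2} {K s w : ℕ} {D0 : Finset V} {x0 : V → Bool}

/-- every clause of `Γ`, and the new clause, is satisfied after the substitution -/
lemma sat_of_sred (hP : P1 A K s D0) {Γ : Set (Finset (V × Bool))}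
    (hΓ : ∀ D ∈ Γ, Good A b K D0 x0 D ∧ NS w D0 x0 D) {C : Finset (V × Bool)}
    {τ : V → Bool ⊕ (V × Bool)}
    (hτ : ∀ D : Finset (V × Bool), (D ∈ Γ ∨ D = C) → (∃ l ∈ D, sub τ l = Sum.inl true) ∨
      Refutes Γ {l | neg l ∈ C ∨ ∃ l' ∈ D, sub τ l' = Sum.inr (neg l)})
    {E : Finset V} {y : V → Bool} (h0E : D0 ⊆ E) (hy0 : ∀ v ∈ D0, y v = x0 v)
    (hs : (E \ D0).card + w ≤ s) (hLC : LC A b K E y) (hCE : ∀ l ∈ C, l.1 ∈ E ∧ y l.1 ≠ l.2)
    {D : Finset (V × Bool)} (hD : D ∈ Γ ∨ D = C) (hDE : ∀ l ∈ D, tgs τ l.1 ⊆ E) :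
    ∃ l ∈ D, ev τ y l.1 = l.2 := by
  rcases hτ D hD with ⟨l, hl, h⟩ | href
  · refine ⟨l, hl, ?_⟩
    unfold sub at h
    unfold ev
    cases h' : τ l.1 with
    | inl e =>
      rw [h'] at h
      simp only [Sum.inl.injEq, beq_iff_eq] at h
      exact h
    | inr m =>
      rw [h'] at h
      simp at h
  · by_contra hcon
    push Not at hcon
    refine not_refutes hP hΓ h0E hy0 hs hLC ?_ href
    rintro l (hl | ⟨l', hl', hsub⟩)
    · obtain ⟨h1, h2⟩ := hCE _ hl
      simp only [neg_fst, neg_snd] at h1 h2
      refine ⟨h1, ?_⟩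
      cases h3 : y l.1 <;> cases h4 : l.2 <;> simp [h3, h4] at h2 ⊢
    · have h1 := hcon l' hl'
      have h2 := hDE l' hl'
      unfold sub at hsub
      unfold ev at h1
      unfold tgs at h2
      cases h' : τ l'.1 with
      | inl e =>
        rw [h'] at hsub
        simp at hsub
      | inr m =>
        rw [h'] at hsub h1 h2
        simp only [Sum.inr.injEq, neg] at hsub
        simp only [Finset.singleton_subset_iff] at h2
        simp only at h1
        obtain ⟨h3, h4⟩ := Prod.mk.inj hsub
        rw [h3] at h1 h2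
        refine ⟨h2, ?_⟩
        cases h5 : y l.1 <;> cases h6 : m.2 <;> cases h7 : l'.2 <;> cases h8 : l.2 <;>
          simp [h5, h6, h7, h8] at h1 h4 ⊢

/-- the situation after the extension to the closed set -/
structure Ctx (A : ι → V → ZMod 2) (b : ι → ZMod 2) (K s w c e1 : ℕ) (D0 D1 : Finset V)
    (Js : Finset ι) (x1 : V → Bool) (τ : V → Bool ⊕ (V × Bool)) : Prop where
  hP : P1 A K s D0
  hK : 1 ≤ K
  hce : 3 * c < 4 * e1 + 2
  hec : e1 ≤ c
  he : 2 ≤ e1
  h01 : D0 ⊆ D1
  hLC : LC A b K D1 x1
  hJs : nbA A Js ⊆ D1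
  hcl : ∀ J : Finset ι, J.card ≤ K → Disjoint J Js → J.Nonempty →
      e1 * J.card + 1 ≤ (nbA A J \ D1).card
  hs : (D1 \ D0).card + w + (2 * c + 2) ≤ s
  star : ∀ (i : ι) (E : Finset V) (y : V → Bool), D1 ⊆ E → (E \ D0).card + w ≤ s →
      (∀ v ∈ D1, y v = x1 v) → LC A b K E y → tgv A τ i ⊆ E → PR.val A i (ev τ y) = b i

variable {c e1 q q2 p0 f : ℕ} {D1 : Finset V} {Js : Finset ι} {x1 : V → Bool}
  {τ : V → Bool ⊕ (V × Bool)}

lemma card_union_sdiff {D1 W D0 : Finset V} : ((D1 ∪ W) \ D0).card ≤ (D1 \ D0).card + W.card := by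
  have : (D1 ∪ W) \ D0 ⊆ (D1 \ D0) ∪ W := by
    intro v hv
    simp only [Finset.mem_sdiff, Finset.mem_union] at hv ⊢
    tauto
  exact (Finset.card_le_card this).trans (Finset.card_union_le _ _)

lemma Ctx.noform (h : Ctx A b K s w c e1 D0 D1 Js x1 τ) (hc : ∀ i, (vars A i).card ≤ c) (i : ι)
    (hfree : ∀ J : Finset ι, J.card ≤ K → ∃ v, v ∉ D1 ∧ AJ A J v ≠ sf A τ i v) : False := by
  have hs := h.hs
  have ht := tgv_card hc τ i
  obtain ⟨y, hy, hyx, hlf⟩ := force h.hP h.hLC (tgv A τ i) (sf A τ i) (by omega)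
    (fun v hv => Finset.mem_union_right _ (sf_mem hv)) hfree
    (b i + ∑ v, A i v * kc τ v + 1)
  have h1 := h.star i (D1 ∪ tgv A τ i) y Finset.subset_union_left
    ((Nat.add_le_add_right card_union_sdiff w).trans (by omega)) hyx hy Finset.subset_union_right
  rw [val_ev, hlf] at h1
  have : ∀ p q : ZMod 2, p + q + 1 + q ≠ p := by decide
  exact this _ _ h1

lemma Ctx.r_lt (h : Ctx A b K s w c e1 D0 D1 Js x1 τ) (hR : Rig A b c (e1 + 1) q q2 p0 f) :
    (univ.filter fun v => tgs τ v ⊆ D1).card < q2 := by
  by_contra hcon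
  push Not at hcon
  obtain ⟨i, hi, hne⟩ := hR.h2 _ hcon (ev τ x1)
  have hs := h.hs
  exact hne (h.star i D1 x1 (le_refl _) (by omega) (fun _ _ => rfl) h.hLC
    (Finset.biUnion_subset.mpr fun v hv => (Finset.mem_filter.mp (hi hv)).2))

lemma Ctx.fiber_lt (h : Ctx A b K s w c e1 D0 D1 Js x1 τ) (hR : Rig A b c (e1 + 1) q q2 p0 f)
    {u : V} (hu : u ∉ D1) : (univ.filter fun v => tgs τ v = {u}).card < f := by
  by_contra hcon
  push Not at hcon
  obtain ⟨i, hodd, hcard⟩ := hR.h3 _ hcon
  refine h.noform hR.card i (free_small hR.card h.hce h.hec h.hK h.hJs h.hcl ⟨u, hu, ?_⟩ ?_)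
  · have h1 : sf A τ i u = ∑ v ∈ univ.filter (fun v => tgs τ v = {u}), A i v := by
      unfold sf
      rw [Finset.sum_filter]
      refine Finset.sum_congr rfl fun v _ => ?_
      by_cases hv : tgs τ v = {u}
      · rw [if_pos hv, pc_eq_one hv, mul_one]
      · rw [if_neg hv]
        by_cases h0 : pc τ v u = 0
        · rw [h0, mul_zero]
        · exact absurd (pc_ne h0) hv
    rw [h1, hodd]
    decide
  · have h1 : (univ.filter fun v => sf A τ i v ≠ 0 ∧ v ∉ D1) ⊆
        insert u ((vars A i \ univ.filter fun v => tgs τ v = {u}).biUnion (tgs τ)) := by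
      intro v hv
      simp only [Finset.mem_filter, Finset.mem_univ, true_and] at hv
      obtain ⟨v', hv', hvv⟩ := sf_ne hv.1
      by_cases huv : v = u
      · rw [huv]
        exact Finset.mem_insert_self _ _
      · refine Finset.mem_insert_of_mem (Finset.mem_biUnion.mpr ⟨v', ?_, ?_⟩)
        · rw [Finset.mem_sdiff]
          refine ⟨hv', ?_⟩
          simp only [Finset.mem_filter, Finset.mem_univ, true_and]
          rw [hvv]
          intro h2
          exact huv (Finset.singleton_inj.mp h2)
        · rw [hvv]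
          exact Finset.mem_singleton_self v
    have h2 := (Finset.card_le_card h1).trans (Finset.card_insert_le _ _)
    have h3 : ((vars A i \ univ.filter fun v => tgs τ v = {u}).biUnion (tgs τ)).card ≤
        (vars A i \ univ.filter fun v => tgs τ v = {u}).card := by
      refine (Finset.card_biUnion_le.trans
        (Finset.sum_le_card_nsmul _ _ 1 fun v _ => tgs_card τ v)).trans ?_
      simp
    omega

lemma Ctx.n_lt (h : Ctx A b K s w c e1 D0 D1 Js x1 τ) (hR : Rig A b c (e1 + 1) q q2 p0 f) :
    (univ.filter fun v => τ v = Sum.inr (v, false) ∧ v ∉ D1).card < q2 := by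
  by_contra hcon
  push Not at hcon
  obtain ⟨i, hi, -⟩ := hR.h2 _ hcon (fun _ => false)
  have hs := h.hs
  have hci := hR.card i
  have hmem : ∀ v ∈ vars A i, τ v = Sum.inr (v, false) := fun v hv =>
    (Finset.mem_filter.mp (hi hv)).2.1
  obtain ⟨y, hy, hyx⟩ := h.hLC.extend_many h.hP (vars A i) (by omega)
  have h1 := hy.sat h.hK i Finset.subset_union_right
  have h2 := h.star i _ y Finset.subset_union_left
    ((Nat.add_le_add_right card_union_sdiff w).trans (by omega)) hyx hy (by
      refine Finset.biUnion_subset.mpr fun v hv => ?_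
      unfold tgs
      rw [hmem v hv]
      simp only [Finset.singleton_subset_iff]
      exact Finset.mem_union_right _ hv)
  have h3 : PR.val A i (ev τ y) = PR.val A i y + ∑ v, A i v := by
    unfold PR.val
    rw [← Finset.sum_add_distrib]
    refine Finset.sum_congr rfl fun v _ => ?_
    by_cases hv : A i v = 0
    · rw [hv]
      simp
    · unfold ev
      rw [hmem v (mem_vars.mpr hv)]
      simp only
      cases y v
      · simp [bz]
      · simp only [bz]
        have : (1 : ZMod 2) + 1 = 0 := by decide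
        simp only [Bool.true_eq_false, beq_iff_eq, if_false, mul_zero, if_true, mul_one]
        have h2 : ∀ z : ZMod 2, (0 : ZMod 2) = z + z := by decide
        exact h2 _
  rw [h3, h1, hR.odd i] at h2
  have : ∀ p : ZMod 2, p + 1 ≠ p := by decide
  exact this _ h2

/-- the target of a variable as a map -/
def tmap (τ : V → Bool ⊕ (V × Bool)) (v : V) : V :=
  match τ v with
  | Sum.inl _ => v
  | Sum.inr m => m.1

lemma tmap_eq {τ : V → Bool ⊕ (V × Bool)} {v u : V} (h : tgs τ v = {u}) : tmap τ v = u := by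
  unfold tgs at h
  unfold tmap
  cases h' : τ v with
  | inl e =>
    rw [h'] at h
    simp only at h
    exact absurd h.symm (Finset.singleton_ne_empty u)
  | inr m =>
    rw [h'] at h
    simp only at h ⊢
    exact Finset.singleton_inj.mp h

lemma Ctx.m_lt (h : Ctx A b K s w c e1 D0 D1 Js x1 τ) (hR : Rig A b c (e1 + 1) q q2 p0 f)
    (hf : 0 < f) :
    (univ.filter fun v => ∃ u, tgs τ v = {u} ∧ u ∉ D1 ∧ u ≠ v).card < 4 * p0 := by
  by_contra hcon
  push Not at hcon
  have hmem : ∀ v ∈ (univ.filter fun v => ∃ u, tgs τ v = {u} ∧ u ∉ D1 ∧ u ≠ v),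
      tgs τ v = {tmap τ v} ∧ tmap τ v ∉ D1 ∧ tmap τ v ≠ v := by
    intro v hv
    obtain ⟨u, hu, hu1, hu2⟩ := (Finset.mem_filter.mp hv).2
    rw [tmap_eq hu]
    exact ⟨hu, hu1, hu2⟩
  obtain ⟨P, hPM, hPc, hP⟩ := exists_quarter _ (tmap τ) fun v hv => (hmem v hv).2.2
  obtain ⟨i, hiP, hi⟩ := hR.h4 P D1 (tmap τ) (by omega)
    (fun v hv => ⟨hP v hv, (hmem v (hPM hv)).2.1⟩) (by
      intro u
      by_cases hu : u ∈ D1
      · have : (P.filter fun v => tmap τ v = u) = ∅ := by
          refine Finset.filter_eq_empty_iff.mpr fun v hv hvu => ?_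
          rw [← hvu] at hu
          exact (hmem v (hPM hv)).2.1 hu
        rw [this]
        simpa using hf
      · refine lt_of_le_of_lt (Finset.card_le_card ?_) (h.fiber_lt hR hu)
        intro v hv
        obtain ⟨hvP, hvu⟩ := Finset.mem_filter.mp hv
        rw [Finset.mem_filter]
        refine ⟨mem_univ _, ?_⟩
        rw [← hvu]
        exact (hmem v (hPM hvP)).1)
  have hvm : ∀ v ∈ vars A i, tgs τ v = {tmap τ v} ∧ tmap τ v ∉ D1 ∧ tmap τ v ≠ v :=
    fun v hv => hmem v (hPM (hiP hv))
  have hD1 : ∀ v, sf A τ i v ≠ 0 → v ∉ D1 := by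
    intro v hv
    obtain ⟨v', hv', hvv⟩ := sf_ne hv
    have := (hvm v' hv').2.1
    rw [tmap_eq hvv] at this
    exact this
  refine h.noform hR.card i (free_of hR.card h.hce h.hJs h.hcl ?_ ?_ ?_)
  · have h1 : ∑ u, sf A τ i u = 1 := by
      unfold sf
      rw [Finset.sum_comm, ← hR.odd i]
      refine Finset.sum_congr rfl fun v _ => ?_
      rw [← Finset.mul_sum]
      by_cases hv : A i v = 0
      · rw [hv, zero_mul]
      · have h2 : ∑ u, pc τ v u = 1 := by
          rw [← Finset.add_sum_erase univ _ (mem_univ (tmap τ v)),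
            pc_eq_one (hvm v (mem_vars.mpr hv)).1, Finset.sum_eq_zero, add_zero]
          intro u hu
          by_contra hne
          have h3 := pc_ne hne
          rw [(hvm v (mem_vars.mpr hv)).1] at h3
          exact (Finset.mem_erase.mp hu).1 (Finset.singleton_inj.mp h3).symm
        rw [h2, mul_one]
    obtain ⟨u, -, hu⟩ : ∃ u ∈ univ, sf A τ i u ≠ 0 := by
      refine Finset.exists_ne_zero_of_sum_ne_zero ?_
      rw [h1]
      decide
    exact ⟨u, hD1 u hu, hu⟩
  · refine (Finset.card_le_card ?_).trans (tgv_card hR.card τ i)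
    intro v hv
    exact sf_mem (Finset.mem_filter.mp hv).2.1
  · intro j hj
    have h1 := h.hcl {j} (by simpa using h.hK) (by simpa using hj) (Finset.singleton_nonempty j)
    have h2 : nbA A {j} = vars A j := by
      unfold nbA
      exact Finset.singleton_biUnion
    rw [h2, Finset.card_singleton] at h1
    by_cases hjP : vars A j ⊆ P
    · obtain ⟨v, hv⟩ := Finset.card_pos.mp (show 0 < (vars A j \ D1).card by omega)
      rw [Finset.mem_sdiff] at hv
      refine ⟨v, hv.2, ?_⟩
      have h3 : sf A τ i v = 0 := by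
        by_contra hne
        obtain ⟨v', hv', hvv⟩ := sf_ne hne
        have h4 := hP v' (hiP hv')
        rw [tmap_eq hvv] at h4
        exact h4 (hjP hv.1)
      rw [h3]
      exact mem_vars.mp hv.1
    · obtain ⟨u, hu, hne⟩ := hi j hjP (by omega)
      refine ⟨u, hu, ?_⟩
      have h3 : sf A τ i u = ∑ v, if tmap τ v = u then A i v else 0 := by
        unfold sf
        refine Finset.sum_congr rfl fun v _ => ?_
        by_cases hv : A i v = 0
        · rw [hv]
          simp
        · have h4 := (hvm v (mem_vars.mpr hv)).1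
          by_cases h5 : tmap τ v = u
          · rw [if_pos h5, pc_eq_one (by rw [← h5]; exact h4), mul_one]
          · rw [if_neg h5]
            by_cases h6 : pc τ v u = 0
            · rw [h6, mul_zero]
            · exact absurd (tmap_eq (pc_ne h6)) h5
      rw [h3]
      exact Ne.symm hne

/-- the unchanged variables -/
def Unch (D1 : Finset V) (x1 : V → Bool) (τ : V → Bool ⊕ (V × Bool)) (v : V) : Prop :=
  τ v = Sum.inr (v, true) ∨ (v ∈ D1 ∧ tgs τ v ⊆ D1 ∧ ev τ x1 v = x1 v)

lemma Unch.ev_eq {v : V} (h : Unch D1 x1 τ v) {y : V → Bool} (hy : ∀ v ∈ D1, y v = x1 v) :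
    ev τ y v = y v := by
  rcases h with h | ⟨h1, h2, h3⟩
  · unfold ev
    rw [h]
    simp
  · rw [hy v h1, ← h3]
    exact ev_congr fun u hu => hy u (h2 hu)

lemma Ctx.unch (h : Ctx A b K s w c e1 D0 D1 Js x1 τ) (hR : Rig A b c (e1 + 1) q q2 p0 f)
    (hf : 0 < f) (hq : 2 * q2 + 4 * p0 ≤ q) (u : V) : Unch D1 x1 τ u := by
  classical
  by_contra hu
  have hs := h.hs
  -- few changed variables
  have hB : (univ.filter fun v => ¬ Unch D1 x1 τ v).card ≤ q := by
    have hsub : (univ.filter fun v => ¬ Unch D1 x1 τ v) ⊆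
        ((univ.filter fun v => tgs τ v ⊆ D1) ∪
          (univ.filter fun v => τ v = Sum.inr (v, false) ∧ v ∉ D1)) ∪
          (univ.filter fun v => ∃ u, tgs τ v = {u} ∧ u ∉ D1 ∧ u ≠ v) := by
      intro v hv
      simp only [Finset.mem_filter, Finset.mem_univ, true_and, Finset.mem_union] at hv ⊢
      by_cases h1 : tgs τ v ⊆ D1
      · exact Or.inl (Or.inl h1)
      · cases h' : τ v with
        | inl e =>
          unfold tgs at h1
          rw [h'] at h1
          simp at h1
        | inr m =>
          have h2 : tgs τ v = {m.1} := by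
            unfold tgs
            rw [h']
          rw [h2, Finset.singleton_subset_iff] at h1
          by_cases h3 : m.1 = v
          · left; right
            rw [h3] at h1
            refine ⟨?_, h1⟩
            have h4 : m.2 = false := by
              by_contra h5
              apply hv
              left
              rw [h']
              have : m.2 = true := by simpa using h5
              rw [← h3, ← this]
            rw [← h3, ← h4]
          · right
            exact ⟨m.1, h2, h1, h3⟩
    have h1 := (Finset.card_le_card hsub).trans ((Finset.card_union_le _ _).trans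
      (Nat.add_le_add_right (Finset.card_union_le _ _) _))
    have h2 := h.r_lt hR
    have h3 := h.n_lt hR
    have h4 := h.m_lt hR hf
    omega
  obtain ⟨i, hiu, hi⟩ := hR.h1 _ hB u (by simpa using hu)
  have hci := hR.card i
  have htc := tgv_card hR.card τ i
  have main : ∀ (E : Finset V) (y : V → Bool), D1 ⊆ E → (E \ D0).card + w ≤ s →
      (∀ v ∈ D1, y v = x1 v) → LC A b K E y → vars A i ⊆ E → tgv A τ i ⊆ E →
      ev τ y u = y u := by
    intro E y h1 h2 h3 h4 h5 h6
    have h7 := h4.sat h.hK i h5
    have h8 := h.star i E y h1 h2 h3 h4 h6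
    rw [← h7] at h8
    unfold PR.val at h8
    rw [← Finset.add_sum_erase univ _ (mem_univ u),
      ← Finset.add_sum_erase univ (fun v => A i v * bz (y v)) (mem_univ u)] at h8
    have h9 : ∑ v ∈ univ.erase u, A i v * bz (ev τ y v) =
        ∑ v ∈ univ.erase u, A i v * bz (y v) := by
      refine Finset.sum_congr rfl fun v hv => ?_
      by_cases h0 : A i v = 0
      · rw [h0, zero_mul, zero_mul]
      · have hv1 : Unch D1 x1 τ v := by
          by_contra hcon
          exact (Finset.mem_erase.mp hv).1 (hi v (by simpa using hcon) h0)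
        rw [hv1.ev_eq h3]
    rw [h9] at h8
    have h10 := add_right_cancel h8
    rw [(zmod2_cases _).resolve_left hiu, one_mul, one_mul] at h10
    exact bz_inj h10
  -- a form that separates the variable from its image
  by_cases hg : ∃ v, v ∉ D1 ∧ pc τ u v + (if v = u then 1 else 0) ≠ 0
  · have hfree := free_small (K := K) hR.card h.hce h.hec h.hK h.hJs h.hcl hg (by
      have hsub : (univ.filter fun v => pc τ u v + (if v = u then 1 else 0) ≠ 0 ∧ v ∉ D1) ⊆
          insert u (tgs τ u) := by
        intro v hv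
        simp only [Finset.mem_filter, Finset.mem_univ, true_and] at hv
        rw [Finset.mem_insert]
        by_cases hvu : v = u
        · exact Or.inl hvu
        · right
          have h1 := hv.1
          rw [if_neg hvu, add_zero] at h1
          rw [pc_ne h1]
          exact Finset.mem_singleton_self v
      have h1 := (Finset.card_le_card hsub).trans (Finset.card_insert_le _ _)
      have h2 := tgs_card τ u
      have h3 := h.he
      omega)
    have hW : (insert u (tgs τ u ∪ (vars A i ∪ tgv A τ i))).card ≤ 2 * c + 2 := by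
      have h1 := Finset.card_insert_le u (tgs τ u ∪ (vars A i ∪ tgv A τ i))
      have h2 := Finset.card_union_le (tgs τ u) (vars A i ∪ tgv A τ i)
      have h3 := Finset.card_union_le (vars A i) (tgv A τ i)
      have h4 := tgs_card τ u
      omega
    obtain ⟨y, hy, hyx, hlf⟩ := force h.hP h.hLC (insert u (tgs τ u ∪ (vars A i ∪ tgv A τ i)))
      (fun v => pc τ u v + (if v = u then 1 else 0)) (by omega) (by
        intro v hv
        apply Finset.mem_union_right
        rw [Finset.mem_insert, Finset.mem_union]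
        by_cases hvu : v = u
        · exact Or.inl hvu
        · right; left
          rw [if_neg hvu, add_zero] at hv
          rw [pc_ne hv]
          exact Finset.mem_singleton_self v) hfree (kc τ u + 1)
    have h1 := main _ y Finset.subset_union_left
      ((Nat.add_le_add_right card_union_sdiff w).trans (by omega)) hyx hy
      (fun v hv => Finset.mem_union_right _ (Finset.mem_insert_of_mem
        (Finset.mem_union_right _ (Finset.mem_union_left _ hv))))
      (fun v hv => Finset.mem_union_right _ (Finset.mem_insert_of_mem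
        (Finset.mem_union_right _ (Finset.mem_union_right _ hv))))
    have h2 := bz_ev τ y u
    rw [h1] at h2
    have h3 : lf (fun v => pc τ u v + (if v = u then 1 else 0)) y = lf (pc τ u) y + bz (y u) := by
      rw [lf_add]
      congr 1
      unfold lf
      simp
    rw [h3, h2] at hlf
    have : ∀ p q : ZMod 2, p + (p + q) ≠ q + 1 := by decide
    exact this _ _ hlf
  · push Not at hg
    obtain ⟨y, hy, hyx⟩ := h.hLC.extend_many h.hP (vars A i ∪ tgv A τ i) (by
      have h3 := Finset.card_union_le (vars A i) (tgv A τ i)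
      omega)
    have h1 := main _ y Finset.subset_union_left
      ((Nat.add_le_add_right card_union_sdiff w).trans (by
        have h3 := Finset.card_union_le (vars A i) (tgv A τ i)
        omega)) hyx hy
      (fun v hv => Finset.mem_union_right _ (Finset.mem_union_left _ hv))
      (fun v hv => Finset.mem_union_right _ (Finset.mem_union_right _ hv))
    by_cases huD : u ∈ D1
    · apply hu
      right
      have h2 : tgs τ u ⊆ D1 := by
        intro v hv
        by_contra hvD
        have h3 : tgs τ u = {v} := by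
          unfold tgs at hv ⊢
          cases h' : τ u with
          | inl e =>
            rw [h'] at hv
            simp at hv
          | inr m =>
            rw [h'] at hv
            simp only [Finset.mem_singleton] at hv
            simp only
            rw [hv]
        have h4 := hg v hvD
        rw [if_neg (by rintro rfl; exact hvD huD), add_zero, pc_eq_one h3] at h4
        exact absurd h4 (by decide)
      refine ⟨huD, h2, ?_⟩
      rw [← hyx u huD, ← h1]
      exact (ev_congr fun v hv => hyx v (h2 hv)).symm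
    · have h2 := hg u huD
      rw [if_pos rfl] at h2
      have h3 : pc τ u u ≠ 0 := by
        intro h0
        rw [h0] at h2
        exact absurd h2 (by decide)
      have h4 := pc_ne h3
      cases h' : τ u with
      | inl e =>
        unfold tgs at h4
        rw [h'] at h4
        simp only at h4
        exact absurd h4.symm (Finset.singleton_ne_empty u)
      | inr m =>
        unfold tgs at h4
        rw [h'] at h4
        simp only at h4
        have h5 : m.1 = u := Finset.singleton_inj.mp h4
        unfold ev at h1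
        rw [h'] at h1
        simp only at h1
        rw [h5] at h1
        have h6 : m.2 = true := by
          cases h7 : m.2
          · rw [h7] at h1
            cases h8 : y u <;> simp [h8] at h1
          · rfl
        apply hu
        left
        rw [h', ← h5, ← h6]

/-- One step of a derivation by substitution redundancy. -/
theorem step_good (hR : Rig A b c (e1 + 1) q q2 p0 f) (hf : 0 < f) (hq : 2 * q2 + 4 * p0 ≤ q)
    (hP : P1 A K s D0) (hK : 1 ≤ K) (hE : Exp A K (e1 + 1) D0) (hce : 3 * c < 4 * e1 + 2)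
    (hec : e1 ≤ c) (he : 2 ≤ e1) (hwK : w ≤ K) (hws : (c + 3) * w + (2 * c + 2) ≤ s)
    {Γ : Set (Finset (V × Bool))} (hsys : sys A b ⊆ Γ)
    (hΓ : ∀ D ∈ Γ, Good A b K D0 x0 D ∧ NS w D0 x0 D) {C : Finset (V × Bool)}
    (hCns : NS w D0 x0 C) (hC : SRed Γ C) : Good A b K D0 x0 C := by
  classical
  intro D x hD0 hx0 hLC hCD
  by_contra hfalse
  push Not at hfalse
  have hnar : (C.image Prod.fst).card ≤ w := by
    rcases hCns with h | ⟨l, hl, hl0, hl1⟩
    · exact h
    · exact absurd (by rw [hx0 _ hl0, hl1]) (hfalse l hl)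
  obtain ⟨Js, hJs, hcl⟩ := exists_closure hE (C.image Prod.fst) (hnar.trans hwK)
  have hnb : (nbA A Js).card ≤ c * w := by
    refine (Finset.card_biUnion_le.trans (Finset.sum_le_card_nsmul _ _ c fun i _ =>
      hR.card i)).trans ?_
    rw [smul_eq_mul, mul_comm]
    exact Nat.mul_le_mul_left _ (hJs.trans hnar)
  have hmul : (c + 3) * w = c * w + 3 * w := by ring
  have hLC0 : LC A b K (D0 ∪ C.image Prod.fst) x := hLC.mono (by
    intro v hv
    rcases Finset.mem_union.mp hv with h | h
    · exact hD0 h
    · obtain ⟨l, hl, rfl⟩ := Finset.mem_image.mp h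
      exact hCD l hl)
  have hcard0 : ((D0 ∪ C.image Prod.fst) \ D0).card ≤ w := by
    have := card_union_sdiff (D1 := D0) (W := C.image Prod.fst) (D0 := D0)
    rw [Finset.sdiff_self, Finset.card_empty] at this
    omega
  obtain ⟨x1, hx1, hx1x⟩ := hLC0.extend_many hP (nbA A Js) (by omega)
  have hcard1 : ((D0 ∪ C.image Prod.fst ∪ nbA A Js) \ D0).card ≤ w + c * w := by
    have := card_union_sdiff (D1 := D0 ∪ C.image Prod.fst) (W := nbA A Js) (D0 := D0)
    omega
  have h01 : D0 ⊆ D0 ∪ C.image Prod.fst ∪ nbA A Js :=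
    Finset.subset_union_left.trans Finset.subset_union_left
  obtain ⟨τ, hτ⟩ := hC
  have hx10 : ∀ v ∈ D0, x1 v = x0 v := by
    intro v hv
    rw [hx1x v (Finset.mem_union_left _ hv), hx0 v hv]
  have hCx1 : ∀ l ∈ C, l.1 ∈ D0 ∪ C.image Prod.fst ∪ nbA A Js ∧ x1 l.1 ≠ l.2 := by
    intro l hl
    have h1 : l.1 ∈ D0 ∪ C.image Prod.fst :=
      Finset.mem_union_right _ (Finset.mem_image_of_mem _ hl)
    refine ⟨Finset.mem_union_left _ h1, ?_⟩
    rw [hx1x _ h1]
    exact hfalse l hl
  have hctx : Ctx A b K s w c e1 D0 (D0 ∪ C.image Prod.fst ∪ nbA A Js) Js x1 τ :=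
    { hP := hP
      hK := hK
      hce := hce
      hec := hec
      he := he
      h01 := h01
      hLC := hx1
      hJs := Finset.subset_union_right
      hcl := hcl
      hs := by omega
      star := by
        intro i E y h1 h2 h3 h4 h5
        by_contra hne
        obtain ⟨l, hl, hl2⟩ := sat_of_sred hP hΓ hτ (h01.trans h1)
          (fun v hv => by rw [h3 v (h01 hv), hx10 v hv]) h2 h4
          (fun l hl => ⟨h1 (hCx1 l hl).1, by rw [h3 _ (hCx1 l hl).1]; exact (hCx1 l hl).2⟩)
          (D := cl A i (ev τ y)) (Or.inl (hsys ⟨i, _, hne, rfl⟩)) (by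
            intro l hl
            obtain ⟨v, hv, rfl⟩ := Finset.mem_image.mp hl
            exact (Finset.subset_biUnion_of_mem (tgs τ) hv).trans h5)
        obtain ⟨v, hv, rfl⟩ := Finset.mem_image.mp hl
        simp at hl2 }
  have hun := hctx.unch hR hf hq
  obtain ⟨y, hy, hyx⟩ := hx1.extend_many hP ((C.image Prod.fst).biUnion (tgs τ)) (by
    have h1 : ((C.image Prod.fst).biUnion (tgs τ)).card ≤ w := by
      refine (Finset.card_biUnion_le.trans
        (Finset.sum_le_card_nsmul _ _ 1 fun v _ => tgs_card τ v)).trans ?_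
      simpa using hnar
    omega)
  have hcard2 : ((D0 ∪ C.image Prod.fst ∪ nbA A Js ∪ (C.image Prod.fst).biUnion (tgs τ)) \
      D0).card ≤ w + c * w + w := by
    have h1 : ((C.image Prod.fst).biUnion (tgs τ)).card ≤ w := by
      refine (Finset.card_biUnion_le.trans
        (Finset.sum_le_card_nsmul _ _ 1 fun v _ => tgs_card τ v)).trans ?_
      simpa using hnar
    have := card_union_sdiff (D1 := D0 ∪ C.image Prod.fst ∪ nbA A Js)
      (W := (C.image Prod.fst).biUnion (tgs τ)) (D0 := D0)
    omega
  obtain ⟨l, hl, hl2⟩ := sat_of_sred hP hΓ hτ (h01.trans Finset.subset_union_left)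
    (fun v hv => by rw [hyx v (h01 hv), hx10 v hv]) (by omega) hy
    (fun l hl => ⟨Finset.mem_union_left _ (hCx1 l hl).1, by
      rw [hyx _ (hCx1 l hl).1]; exact (hCx1 l hl).2⟩)
    (D := C) (Or.inr rfl) (by
      intro l hl
      exact (Finset.subset_biUnion_of_mem (tgs τ) (Finset.mem_image_of_mem _ hl)).trans
        Finset.subset_union_right)
  rw [(hun l.1).ev_eq hyx, hyx _ (hCx1 l hl).1] at hl2
  exact (hCx1 l hl).2 hl2

/-- All clauses of a derivation are locally implied, if the restriction satisfies the wide ones. -/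
theorem derivation_good (hR : Rig A b c (e1 + 1) q q2 p0 f) (hf : 0 < f)
    (hq : 2 * q2 + 4 * p0 ≤ q) (hP : P1 A K s D0) (hK : 1 ≤ K) (hE : Exp A K (e1 + 1) D0)
    (hce : 3 * c < 4 * e1 + 2) (hec : e1 ≤ c) (he : 2 ≤ e1) (hcw : c ≤ w) (hwK : w ≤ K)
    (hws : (c + 3) * w + (2 * c + 2) ≤ s) {L : List (Finset (V × Bool))}
    (hL : SR.Derivation (sys A b) L) (hns : ∀ C ∈ L, NS w D0 x0 C) :
    ∀ C ∈ L, Good A b K D0 x0 C := by
  induction hL with
  | nil => intro C hC; simp at hC
  | @cons C L hL M hM hC ih =>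
    intro C' hC'
    rcases List.mem_cons.mp hC' with rfl | hC'
    · refine step_good hR hf hq hP hK hE hce hec he hwK hws (Γ := sys A b ∪ M)
        (fun D hD => Or.inl hD) ?_ (hns _ (by simp)) hC
      rintro D (hD | hD')
      · refine ⟨sys_good hK hD, Or.inl ?_⟩
        obtain ⟨i, θ, -, rfl⟩ := hD
        refine le_trans ?_ hcw
        refine le_trans ?_ (hR.card i)
        unfold cl
        rw [Finset.image_image]
        refine Finset.card_image_le
      · have hD := hM D hD'
        exact ⟨ih (fun C hC => hns C (List.mem_cons_of_mem _ hC)) D hD,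
          hns D (List.mem_cons_of_mem _ hD)⟩
    · exact ih (fun C hC => hns C (List.mem_cons_of_mem _ hC)) C' hC'

/-- A refutation contains a wide clause which is not satisfied by the restriction. -/
theorem exists_wide (hR : Rig A b c (e1 + 1) q q2 p0 f) (hf : 0 < f)
    (hq : 2 * q2 + 4 * p0 ≤ q) (hP : P1 A K s D0) (hK : 1 ≤ K) (hE : Exp A K (e1 + 1) D0)
    (hce : 3 * c < 4 * e1 + 2) (hec : e1 ≤ c) (he : 2 ≤ e1) (hcw : c ≤ w) (hwK : w ≤ K)
    (hws : (c + 3) * w + (2 * c + 2) ≤ s)
    (hP2 : ∀ J : Finset ι, J.card ≤ K → (∀ v, AJ A J v ≠ 0 → v ∈ D0) → J = ∅)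
    {L : List (Finset (V × Bool))} (hL : SR.Derivation (sys A b) L) (hemp : ∅ ∈ L)
    (x0 : V → Bool) : ∃ C ∈ L, ¬ NS w D0 x0 C := by
  by_contra hcon
  push Not at hcon
  have hg := derivation_good hR hf hq hP hK hE hce hec he hcw hwK hws hL hcon ∅ hemp
  obtain ⟨l, hl, -⟩ := hg D0 x0 (le_refl _) (fun _ _ => rfl) (by
    intro J hJ hs
    rw [hP2 J hJ hs]
    simp [T, AJ]) (by simp)
  simp at hl

end Pool.Agent.J4H24.SR
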